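import Mathlib

-- merged part: Pool.Agent.Work.MP_2b187c_an.Quartic
section
-- merged part: Pool.Agent.Work.MP_2b187c_an.Kernel
section
/-!
Nonnegative kernels with a quasi Cauchy-Schwarz inequality, and the finite-dimensional normed
spaces attached to them.
-/

set_option autoImplicit false

open Finset

namespace Pool.Agent.Work.MP_2b187c_an

variable {I : Type} [Fintype I]

/-- The bilinear form of a kernel. -/
def bil (b : I → I → ℝ) (s t : I → ℝ) : ℝ := ∑ x, ∑ y, b x y * s x * t y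

/-- The quartic form of a kernel. -/
def quart (b : I → I → ℝ) (ξ : I → ℝ) : ℝ := bil b (fun x => ξ x ^ 2) (fun x => ξ x ^ 2)

open Classical in
lemma threshold_cs {R R' : I → I → Prop} (hsym : ∀ x y, R x y → R y x)
    (hcomp : ∀ x y z, R x y → R y z → R' x z) {s t : I → ℝ} (hs : ∀ x, 0 ≤ s x)
    (ht : ∀ x, 0 ≤ t x) :
    bil (fun x y => if R x y then 1 else 0) s t ≤
      bil (fun x y => if R' x y then 1 else 0) s s +
        bil (fun x y => if R' x y then 1 else 0) t t := by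
  set A : I → ℝ := fun x => ∑ y, (if R' x y then 1 else 0) * s y with hA
  set B : I → ℝ := fun x => ∑ y, (if R' x y then 1 else 0) * t y with hB
  have hA0 : ∀ x, 0 ≤ A x := fun x => sum_nonneg fun y _ =>
    mul_nonneg (by split_ifs <;> norm_num) (hs y)
  have hB0 : ∀ x, 0 ≤ B x := fun x => sum_nonneg fun y _ =>
    mul_nonneg (by split_ifs <;> norm_num) (ht y)
  have e1 : bil (fun x y => if R' x y then 1 else 0) s s = ∑ x, s x * A x := by
    simp only [bil, hA, mul_sum]
    exact sum_congr rfl fun x _ => sum_congr rfl fun y _ => by ring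
  have e2 : bil (fun x y => if R' x y then 1 else 0) t t = ∑ y, t y * B y := by
    simp only [bil, hB, mul_sum]
    exact sum_congr rfl fun x _ => sum_congr rfl fun y _ => by ring
  have h1 : ∀ y, ∑ x, (if R x y ∧ A x ≤ B y then s x else 0) ≤ B y := by
    intro y
    by_cases h : ∃ x₀, R x₀ y ∧ A x₀ ≤ B y
    · obtain ⟨x₀, h0, h0'⟩ := h
      refine le_trans (sum_le_sum fun x _ => ?_) h0'
      split_ifs with h2 h3 h3
      · simp
      · exact absurd (hcomp x₀ y x h0 (hsym _ _ h2.1)) h3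
      · simpa using hs x
      · simp
    · push Not at h
      rw [sum_eq_zero fun x _ => if_neg fun h2 => absurd h2.2 (not_le.2 (h x h2.1))]
      exact hB0 y
  have h2 : ∀ x, ∑ y, (if R x y ∧ ¬ A x ≤ B y then t y else 0) ≤ A x := by
    intro x
    by_cases h : ∃ y₀, R x y₀ ∧ ¬ A x ≤ B y₀
    · obtain ⟨y₀, h0, h0'⟩ := h
      refine le_trans (sum_le_sum fun y _ => ?_) (not_le.1 h0').le
      split_ifs with h2 h3 h3
      · simp
      · exact absurd (hcomp y₀ x y (hsym _ _ h0) h2.1) h3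
      · simpa using ht y
      · simp
    · rw [sum_eq_zero fun y _ => if_neg fun h2 => h ⟨y, h2⟩]
      exact hA0 x
  have e3 : bil (fun x y => if R x y then 1 else 0) s t =
      ∑ x, s x * ∑ y, (if R x y ∧ ¬ A x ≤ B y then t y else 0) +
        ∑ y, t y * ∑ x, (if R x y ∧ A x ≤ B y then s x else 0) := by
    simp only [bil, mul_sum]
    rw [sum_comm (f := fun y x => t y * if R x y ∧ A x ≤ B y then s x else 0), ← sum_add_distrib]
    refine sum_congr rfl fun x _ => ?_
    rw [← sum_add_distrib]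
    refine sum_congr rfl fun y _ => ?_
    by_cases h3 : R x y <;> by_cases h4 : A x ≤ B y <;> simp [h3, h4, mul_comm]
  rw [e1, e2, e3]
  exact add_le_add (sum_le_sum fun x _ => mul_le_mul_of_nonneg_left (h2 x) (hs x))
    (sum_le_sum fun y _ => mul_le_mul_of_nonneg_left (h1 y) (ht y))

/-- Kernels whose quartic form is comparable to the fourth power of a norm. -/
structure GoodKernel (b : I → I → ℝ) : Prop where
  nonneg : ∀ x y, 0 ≤ b x y
  diag : ∀ x, 1 ≤ b x x
  cs : ∀ s t : I → ℝ, (∀ x, 0 ≤ s x) → (∀ x, 0 ≤ t x) → bil b s t ≤ 9 * (bil b s s + bil b t t)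

lemma bil_smul_left (b : I → I → ℝ) (c : ℝ) (s t : I → ℝ) :
    bil b (fun x => c * s x) t = c * bil b s t := by
  simp only [bil, mul_sum]
  exact sum_congr rfl fun x _ => sum_congr rfl fun y _ => by ring

lemma bil_smul_right (b : I → I → ℝ) (c : ℝ) (s t : I → ℝ) :
    bil b s (fun x => c * t x) = c * bil b s t := by
  simp only [bil, mul_sum]
  exact sum_congr rfl fun x _ => sum_congr rfl fun y _ => by ring

namespace GoodKernel

variable {b : I → I → ℝ} (h : GoodKernel b)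
include h

lemma bil_nonneg {s t : I → ℝ} (hs : ∀ x, 0 ≤ s x) (ht : ∀ x, 0 ≤ t x) : 0 ≤ bil b s t :=
  sum_nonneg fun x _ => sum_nonneg fun y _ => mul_nonneg (mul_nonneg (h.nonneg x y) (hs x)) (ht y)

lemma sq_le_bil {s : I → ℝ} (hs : ∀ x, 0 ≤ s x) (x : I) : s x ^ 2 ≤ bil b s s := by
  have h1 : b x x * s x * s x ≤ ∑ y, b x y * s x * s y :=
    single_le_sum (f := fun y => b x y * s x * s y)
      (fun y _ => mul_nonneg (mul_nonneg (h.nonneg x y) (hs x)) (hs y)) (mem_univ x)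
  have h2 : ∑ y, b x y * s x * s y ≤ bil b s s :=
    single_le_sum (f := fun x => ∑ y, b x y * s x * s y)
      (fun x _ => sum_nonneg fun y _ => mul_nonneg (mul_nonneg (h.nonneg x y) (hs x)) (hs y))
      (mem_univ x)
  have := h.diag x
  linarith only [h1, h2, this, sq_nonneg (s x), mul_nonneg_of_nonpos_of_nonpos (Mathlib.Tactic.Linarith.sub_nonpos_of_le (sq_nonneg (s x))) (Mathlib.Tactic.Linarith.sub_nonpos_of_le this)]

lemma quart_nonneg (ξ : I → ℝ) : 0 ≤ quart b ξ :=
  h.bil_nonneg (fun _ => sq_nonneg _) (fun _ => sq_nonneg _)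

lemma bil_le_sqrt {s t : I → ℝ} (hs : ∀ x, 0 ≤ s x) (ht : ∀ x, 0 ≤ t x) (ht1 : bil b t t ≤ 1) :
    bil b s t ≤ 18 * √(bil b s s) := by
  have h0 := h.bil_nonneg hs hs
  rcases h0.lt_or_eq with h1 | h1
  · set r := √(bil b s s) with hr
    have hr0 : 0 < r := Real.sqrt_pos.2 h1
    have hr2 : r * r = bil b s s := Real.mul_self_sqrt h0
    have h2 := h.cs (fun x => r⁻¹ * s x) t (fun x => mul_nonneg (inv_nonneg.2 hr0.le) (hs x)) ht
    rw [bil_smul_left, bil_smul_left, bil_smul_right, ← hr2] at h2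
    have e : r⁻¹ * (r⁻¹ * (r * r)) = 1 := by field_simp
    rw [e, inv_mul_le_iff₀ hr0] at h2
    linarith only [h2, ht1, hr0, mul_nonneg_of_nonpos_of_nonpos (Mathlib.Tactic.Linarith.sub_nonpos_of_le ht1) (le_of_lt (Mathlib.Tactic.Linarith.sub_neg_of_lt hr0))]
  · have h2 : ∀ x, s x = 0 := fun x => by
      have := h.sq_le_bil hs x
      rw [← h1] at this
      exact pow_eq_zero_iff (two_ne_zero) |>.1 (le_antisymm this (sq_nonneg _))
    have h3 : bil b s t = 0 := by simp [bil, h2]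
    rw [h3]; positivity

end GoodKernel

/-- The test vectors. -/
def Test (b : I → I → ℝ) : Type := {t : I → ℝ // (∀ x, 0 ≤ t x) ∧ bil b t t ≤ 1}

instance (b : I → I → ℝ) : Nonempty (Test b) := ⟨⟨fun _ => 0, fun _ => le_rfl, by simp [bil]⟩⟩

/-- The norm attached to a kernel. -/
noncomputable def nrm (b : I → I → ℝ) (ξ : I → ℝ) : ℝ :=
  ⨆ t : Test b, √(bil b (fun x => ξ x ^ 2) t.1)

namespace GoodKernel

variable {b : I → I → ℝ} (h : GoodKernel b)
include h

lemma sqrt_bil_le (ξ : I → ℝ) (t : Test b) :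
    √(bil b (fun x => ξ x ^ 2) t.1) ≤ √(18 * √(quart b ξ)) :=
  Real.sqrt_le_sqrt (h.bil_le_sqrt (fun _ => sq_nonneg _) t.2.1 t.2.2)

lemma bdd (ξ : I → ℝ) :
    BddAbove (Set.range fun t : Test b => √(bil b (fun x => ξ x ^ 2) t.1)) :=
  ⟨_, by rintro _ ⟨t, rfl⟩; exact h.sqrt_bil_le ξ t⟩

lemma le_nrm (ξ : I → ℝ) (t : Test b) : √(bil b (fun x => ξ x ^ 2) t.1) ≤ nrm b ξ :=
  le_ciSup (h.bdd ξ) t

lemma nrm_nonneg (ξ : I → ℝ) : 0 ≤ nrm b ξ :=
  (Real.sqrt_nonneg _).trans (h.le_nrm ξ (Classical.arbitrary _))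

lemma nrm_pow_le (ξ : I → ℝ) : nrm b ξ ^ 4 ≤ 324 * quart b ξ := by
  have h1 : nrm b ξ ≤ √(18 * √(quart b ξ)) := ciSup_le (h.sqrt_bil_le ξ)
  have h2 : nrm b ξ ^ 4 ≤ √(18 * √(quart b ξ)) ^ 4 := pow_le_pow_left₀ (h.nrm_nonneg ξ) h1 4
  have h3 : √(18 * √(quart b ξ)) ^ 4 = 324 * quart b ξ := by
    rw [show (4 : ℕ) = 2 * 2 from rfl, pow_mul, Real.sq_sqrt (by positivity), mul_pow,
      Real.sq_sqrt (h.quart_nonneg ξ)]
    norm_num
  linarith

lemma le_nrm_pow (ξ : I → ℝ) : quart b ξ ≤ nrm b ξ ^ 4 := by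
  have h0 := h.quart_nonneg ξ
  rcases h0.lt_or_eq with h1 | h1
  · set r := √(quart b ξ) with hr
    have hr0 : 0 < r := Real.sqrt_pos.2 h1
    have hr2 : r * r = quart b ξ := Real.mul_self_sqrt h0
    have h2 := h.le_nrm ξ ⟨fun x => r⁻¹ * ξ x ^ 2,
      fun x => mul_nonneg (inv_nonneg.2 hr0.le) (sq_nonneg _), by
        rw [bil_smul_left, bil_smul_right]
        change r⁻¹ * (r⁻¹ * quart b ξ) ≤ 1
        rw [← hr2]
        apply le_of_eq
        field_simp⟩
    simp only [bil_smul_right] at h2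
    change √(r⁻¹ * quart b ξ) ≤ _ at h2
    have e : r⁻¹ * quart b ξ = r := by rw [← hr2]; field_simp
    rw [e] at h2
    have h3 := pow_le_pow_left₀ (Real.sqrt_nonneg _) h2 4
    rw [show (4 : ℕ) = 2 * 2 from rfl, pow_mul, Real.sq_sqrt hr0.le, sq, hr2] at h3
    exact h3
  · rw [← h1]; exact pow_nonneg (h.nrm_nonneg ξ) 4

lemma nrm_add_le (ξ ζ : I → ℝ) : nrm b (ξ + ζ) ≤ nrm b ξ + nrm b ζ := by
  refine ciSup_le fun t => le_trans ?_ (add_le_add (h.le_nrm ξ t) (h.le_nrm ζ t))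
  set w : I → ℝ := fun x => ∑ y, b x y * t.1 y with hw
  have hw0 : ∀ x, 0 ≤ w x := fun x => sum_nonneg fun y _ => mul_nonneg (h.nonneg x y) (t.2.1 y)
  have key : ∀ η : I → ℝ, √(bil b (fun x => η x ^ 2) t.1) =
      ‖(WithLp.toLp 2 (fun x => √(w x) * η x) : EuclideanSpace ℝ I)‖ := by
    intro η
    rw [EuclideanSpace.norm_eq]
    congr 1
    simp only [bil, Real.norm_eq_abs, sq_abs, mul_pow, Real.sq_sqrt (hw0 _)]
    refine sum_congr rfl fun x _ => ?_
    simp only [hw, sum_mul]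
    exact sum_congr rfl fun y _ => by ring
  rw [key, key, key]
  refine le_of_eq_of_le ?_ (norm_add_le _ _)
  congr 1
  ext x
  simp [mul_add]

omit h in
lemma nrm_smul (c : ℝ) (ξ : I → ℝ) : nrm b (c • ξ) = |c| * nrm b ξ := by
  unfold nrm
  rw [Real.mul_iSup_of_nonneg (abs_nonneg c)]
  congr 1
  ext t
  have e : (fun x => (c • ξ) x ^ 2) = fun x => c ^ 2 * ξ x ^ 2 := by
    ext x; simp [mul_pow]
  rw [e, bil_smul_left, Real.sqrt_mul (sq_nonneg c), Real.sqrt_sq_eq_abs]

end GoodKernel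

/-- The finite-dimensional space attached to a good kernel. -/
def Blk (b : I → I → ℝ) (_h : GoodKernel b) : Type := I → ℝ

namespace Blk

variable {b : I → I → ℝ} {h : GoodKernel b}

instance : AddCommGroup (Blk b h) := inferInstanceAs (AddCommGroup (I → ℝ))

instance : Module ℝ (Blk b h) := inferInstanceAs (Module ℝ (I → ℝ))

instance : FiniteDimensional ℝ (Blk b h) := inferInstanceAs (FiniteDimensional ℝ (I → ℝ))

noncomputable instance : NormedAddCommGroup (Blk b h) :=
  AddGroupNorm.toNormedAddCommGroup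
    { toFun := fun ξ => nrm b ξ
      map_zero' := by
        have := GoodKernel.nrm_smul (b := b) 0 0
        rw [zero_smul, abs_zero, zero_mul] at this
        exact this
      add_le' := fun ξ ζ => h.nrm_add_le ξ ζ
      neg' := fun ξ => by
        have key : ∀ η : I → ℝ, nrm b (-η) = nrm b η := fun η => by
          have := GoodKernel.nrm_smul (b := b) (-1) η
          rwa [neg_one_smul, abs_neg, abs_one, one_mul] at this
        exact key ξ
      eq_zero_of_map_eq_zero' := fun ξ hξ => by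
        have h1 := h.le_nrm_pow ξ
        rw [show nrm b ξ = 0 from hξ] at h1
        funext x
        have h2 := h.sq_le_bil (s := fun x => (ξ x : ℝ) ^ 2) (fun _ => sq_nonneg _) x
        change _ ≤ quart b ξ at h2
        have h3 : ((ξ x : ℝ) ^ 2) ^ 2 = 0 := le_antisymm (by linarith) (sq_nonneg _)
        have h4 : (ξ x : ℝ) = 0 := by simpa using h3
        exact h4 }

lemma norm_def (ξ : Blk b h) : ‖ξ‖ = nrm b ξ := rfl

noncomputable instance : NormedSpace ℝ (Blk b h) where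
  norm_smul_le c ξ := (GoodKernel.nrm_smul (b := b) c ξ).le

instance : CompleteSpace (Blk b h) := FiniteDimensional.complete ℝ _

lemma quart_le (ξ : Blk b h) : quart b ξ ≤ ‖ξ‖ ^ 4 := h.le_nrm_pow ξ

lemma le_quart (ξ : Blk b h) : ‖ξ‖ ^ 4 ≤ 324 * quart b ξ := h.nrm_pow_le ξ

end Blk

end Pool.Agent.Work.MP_2b187c_an
end

-- merged part: Pool.Agent.Work.MP_2b187c_an.Quartic
section
/-!
Quartic forms and choices of signs.
-/

set_option autoImplicit false

open Finset

namespace Pool.Agent.Work.MP_2b187c_an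

section Abstract

variable {V W : Type} [AddCommGroup V] [AddCommGroup W]

/-- The mixed biquadratic part of a quartic form. -/
noncomputable def mix (T : V → ℝ) (u v : V) : ℝ := (T (u + v) + T (u - v)) / 2 - T u - T v

/-- The algebraic properties of quartic forms that we use. -/
structure IsQuartic (T : V → ℝ) : Prop where
  zero : T 0 = 0
  even : ∀ u, T (-u) = T u
  par : ∀ u h v, mix T (u + h) v + mix T (u - h) v = 2 * mix T u v + 2 * mix T h v

lemma IsQuartic.mix_comm {T : V → ℝ} (hT : IsQuartic T) (u v : V) : mix T u v = mix T v u := by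
  unfold mix
  rw [add_comm u v, ← neg_sub v u, hT.even]
  ring

lemma IsQuartic.mix_zero {T : V → ℝ} (hT : IsQuartic T) (v : V) : mix T 0 v = 0 := by
  unfold mix
  rw [zero_add, zero_sub, hT.even, hT.zero]
  ring

lemma IsQuartic.comp {T : V → ℝ} (hT : IsQuartic T) (L : W →+ V) : IsQuartic fun w => T (L w) := by
  refine ⟨by simp [hT.zero], fun u => by simp [hT.even], fun u h v => ?_⟩
  have := hT.par (L u) (L h) (L v)
  simpa only [mix, map_add, map_sub] using this

lemma IsQuartic.add {T T' : V → ℝ} (hT : IsQuartic T) (hT' : IsQuartic T') :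
    IsQuartic fun w => T w + T' w := by
  refine ⟨by simp [hT.zero, hT'.zero], fun u => by simp [hT.even, hT'.even], fun u h v => ?_⟩
  have h1 := hT.par u h v
  have h2 := hT'.par u h v
  simp only [mix] at h1 h2 ⊢
  linarith only [h1, h2]

lemma IsQuartic.const_mul {T : V → ℝ} (hT : IsQuartic T) (c : ℝ) :
    IsQuartic fun w => c * T w := by
  refine ⟨by simp [hT.zero], fun u => by simp [hT.even], fun u h v => ?_⟩
  have h1 := hT.par u h v
  simp only [mix] at h1 ⊢
  linear_combination c * h1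

variable [Module ℝ V]

lemma IsQuartic.exists_sign_aux {T : V → ℝ} (hT : IsQuartic T) {ι : Type} [DecidableEq ι]
    (v : ι → V) (s : Finset ι) : ∀ u : V, ∃ ε : ι → ℝ, (∀ i, ε i ^ 2 = 1) ∧
      T u + ∑ i ∈ s, mix T u (v i) +
        ∑ i ∈ s, ∑ j ∈ s, (if i = j then T (v i) else mix T (v i) (v j) / 2) ≤
      T (u + ∑ i ∈ s, ε i • v i) := by
  induction s using Finset.induction_on with
  | empty => intro u; exact ⟨fun _ => 1, fun _ => by norm_num, by simp⟩
  | insert a s ha ih =>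
    intro u
    have e1 : ∑ i ∈ insert a s, ∑ j ∈ insert a s,
        (if i = j then T (v i) else mix T (v i) (v j) / 2) =
        T (v a) + ∑ i ∈ s, mix T (v a) (v i) +
          ∑ i ∈ s, ∑ j ∈ s, (if i = j then T (v i) else mix T (v i) (v j) / 2) := by
      rw [sum_insert ha, sum_insert ha, if_pos rfl]
      have e2 : ∑ j ∈ s, (if a = j then T (v a) else mix T (v a) (v j) / 2) =
          ∑ j ∈ s, mix T (v a) (v j) / 2 :=
        sum_congr rfl fun j hj => if_neg (by rintro rfl; exact ha hj)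
      have e3 : ∑ i ∈ s, ∑ j ∈ insert a s, (if i = j then T (v i) else mix T (v i) (v j) / 2) =
          ∑ i ∈ s, (mix T (v a) (v i) / 2 +
            ∑ j ∈ s, (if i = j then T (v i) else mix T (v i) (v j) / 2)) :=
        sum_congr rfl fun i hi => by
          rw [sum_insert ha, if_neg (by rintro rfl; exact ha hi), hT.mix_comm]
      rw [e2, e3, sum_add_distrib, ← sum_div]
      ring
    have e4 : ∑ i ∈ s, mix T (u + v a) (v i) + ∑ i ∈ s, mix T (u - v a) (v i) =
        2 * ∑ i ∈ s, mix T u (v i) + 2 * ∑ i ∈ s, mix T (v a) (v i) := by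
      rw [← sum_add_distrib, mul_sum, mul_sum, ← sum_add_distrib]
      exact sum_congr rfl fun i _ => hT.par u (v a) (v i)
    have e5 : T (u + v a) + T (u - v a) = 2 * mix T u (v a) + 2 * T u + 2 * T (v a) := by
      unfold mix; ring
    have key : ∀ (δ : ℝ) (ε : ι → ℝ), u + ∑ i ∈ insert a s, Function.update ε a δ i • v i =
        u + δ • v a + ∑ i ∈ s, ε i • v i := by
      intro δ ε
      rw [sum_insert ha, Function.update_self, add_assoc]
      congr 2
      exact sum_congr rfl fun i hi => by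
        rw [Function.update_of_ne (by rintro rfl; exact ha hi)]
    have hupd : ∀ (δ : ℝ) (ε : ι → ℝ), δ ^ 2 = 1 → (∀ i, ε i ^ 2 = 1) →
        ∀ i, Function.update ε a δ i ^ 2 = 1 := by
      intro δ ε h1 h2 i
      by_cases hi : i = a
      · rw [hi, Function.update_self]; exact h1
      · rw [Function.update_of_ne hi]; exact h2 i
    rw [e1, sum_insert ha]
    obtain ⟨ε₁, h1, h1'⟩ := ih (u + v a)
    obtain ⟨ε₂, h2, h2'⟩ := ih (u - v a)
    by_cases hc : T (u - v a) + ∑ i ∈ s, mix T (u - v a) (v i) ≤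
        T (u + v a) + ∑ i ∈ s, mix T (u + v a) (v i)
    · refine ⟨Function.update ε₁ a 1, hupd _ _ (by norm_num) h1, ?_⟩
      rw [key, one_smul]
      linarith only [e4, e5, h1', hc]
    · refine ⟨Function.update ε₂ a (-1), hupd _ _ (by norm_num) h2, ?_⟩
      rw [key, neg_one_smul, ← sub_eq_add_neg]
      linarith only [e4, e5, h2', hc]

lemma IsQuartic.exists_sign_ge {T : V → ℝ} (hT : IsQuartic T) {ι : Type} [DecidableEq ι]
    [Fintype ι] (v : ι → V) : ∃ ε : ι → ℝ, (∀ i, ε i ^ 2 = 1) ∧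
      ∑ i, ∑ j, (if i = j then T (v i) else mix T (v i) (v j) / 2) ≤ T (∑ i, ε i • v i) := by
  obtain ⟨ε, h1, h2⟩ := hT.exists_sign_aux v univ 0
  refine ⟨ε, h1, ?_⟩
  simpa [hT.zero, hT.mix_zero] using h2

lemma IsQuartic.exists_sign_le {T : V → ℝ} (hT : IsQuartic T) {ι : Type} [DecidableEq ι]
    [Fintype ι] (v : ι → V) : ∃ ε : ι → ℝ, (∀ i, ε i ^ 2 = 1) ∧
      T (∑ i, ε i • v i) ≤ ∑ i, ∑ j, (if i = j then T (v i) else mix T (v i) (v j) / 2) := by
  obtain ⟨ε, h1, h2⟩ := (hT.const_mul (-1)).exists_sign_ge v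
  refine ⟨ε, h1, ?_⟩
  have e : ∑ i, ∑ j, (if i = j then -1 * T (v i) else mix (fun w => -1 * T w) (v i) (v j) / 2) =
      - ∑ i, ∑ j, (if i = j then T (v i) else mix T (v i) (v j) / 2) := by
    rw [← sum_neg_distrib]
    refine sum_congr rfl fun i _ => ?_
    rw [← sum_neg_distrib]
    refine sum_congr rfl fun j _ => ?_
    split_ifs
    · ring
    · unfold mix; ring
  rw [e] at h2
  linarith only [h2]

end Abstract

lemma isQuartic_multilinear {X : Type} [AddCommGroup X] [Module ℝ X]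
    (A : MultilinearMap ℝ (fun _ : Fin 4 => X) ℝ) : IsQuartic fun y : X => A (fun _ => y) := by
  set f : X → X → X → X → ℝ := fun u v w z => A ![u, v, w, z] with hf
  have u0 : ∀ x v w z : X, Function.update ![0, v, w, z] 0 x = ![x, v, w, z] := by
    intro x v w z; ext j; fin_cases j <;> simp
  have u1 : ∀ x u w z : X, Function.update ![u, 0, w, z] 1 x = ![u, x, w, z] := by
    intro x u w z; ext j; fin_cases j <;> simp
  have u2 : ∀ x u v z : X, Function.update ![u, v, 0, z] 2 x = ![u, v, x, z] := by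
    intro x u v z; ext j; fin_cases j <;> simp
  have u3 : ∀ x u v w : X, Function.update ![u, v, w, 0] 3 x = ![u, v, w, x] := by
    intro x u v w; ext j; fin_cases j <;> simp
  have a0 : ∀ x y v w z, f (x + y) v w z = f x v w z + f y v w z := fun x y v w z => by
    simp only [hf]; rw [← u0, A.map_update_add, u0, u0]
  have a1 : ∀ x y u w z, f u (x + y) w z = f u x w z + f u y w z := fun x y u w z => by
    simp only [hf]; rw [← u1, A.map_update_add, u1, u1]
  have a2 : ∀ x y u v z, f u v (x + y) z = f u v x z + f u v y z := fun x y u v z => by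
    simp only [hf]; rw [← u2, A.map_update_add, u2, u2]
  have a3 : ∀ x y u v w, f u v w (x + y) = f u v w x + f u v w y := fun x y u v w => by
    simp only [hf]; rw [← u3, A.map_update_add, u3, u3]
  have n0 : ∀ x v w z, f (-x) v w z = - f x v w z := fun x v w z => by
    simp only [hf]; rw [← u0, A.map_update_neg, u0]
  have n1 : ∀ x u w z, f u (-x) w z = - f u x w z := fun x u w z => by
    simp only [hf]; rw [← u1, A.map_update_neg, u1]
  have n2 : ∀ x u v z, f u v (-x) z = - f u v x z := fun x u v z => by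
    simp only [hf]; rw [← u2, A.map_update_neg, u2]
  have n3 : ∀ x u v w, f u v w (-x) = - f u v w x := fun x u v w => by
    simp only [hf]; rw [← u3, A.map_update_neg, u3]
  have e : (fun y : X => A (fun _ => y)) = fun y => f y y y y := by
    ext y
    simp only [hf]
    congr 1
    ext j; fin_cases j <;> rfl
  rw [e]
  refine ⟨?_, fun u => by simp only [n0, n1, n2, n3, neg_neg], fun u h v => ?_⟩
  · have := a0 0 0 0 0 0
    rw [add_zero] at this
    linarith
  · simp only [mix, sub_eq_add_neg, a0, a1, a2, a3, n0, n1, n2, n3]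
    ring

section Points

variable {I : Type} [Fintype I] [DecidableEq I]

/-- The pair kernel of a quartic form on a coordinate space. -/
noncomputable def pk (T : (I → ℝ) → ℝ) (x y : I) : ℝ :=
  if x = y then T (Pi.single x 1) else mix T (Pi.single x 1) (Pi.single y 1) / 2

variable {ι : Type} [Fintype ι] [DecidableEq ι]

lemma quart_signs (b : I → I → ℝ) {p : ι → I} (hp : Function.Injective p) {ε : ι → ℝ}
    (hε : ∀ i, ε i ^ 2 = 1) :
    quart b (∑ i, ε i • (Pi.single (p i) 1 : I → ℝ)) = ∑ i, ∑ j, b (p i) (p j) := by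
  have e : ∀ x, (∑ i, ε i • (Pi.single (p i) 1 : I → ℝ)) x ^ 2 =
      ∑ i, if x = p i then 1 else 0 := by
    intro x
    simp only [Finset.sum_apply, Pi.smul_apply, Pi.single_apply, smul_eq_mul, mul_ite, mul_one,
      mul_zero]
    by_cases h : ∃ i, x = p i
    · obtain ⟨i, rfl⟩ := h
      simp only [hp.eq_iff, sum_ite_eq, mem_univ, if_true, hε]
    · push Not at h
      simp [h]
  simp only [quart, bil, e, mul_sum, sum_mul]
  have e2 : ∀ x y : I, ∑ j, ∑ i, (b x y * if x = p i then (1 : ℝ) else 0) *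
      (if y = p j then 1 else 0) = ∑ i, ∑ j, if x = p i then (if y = p j then b x y else 0) else 0 := by
    intro x y
    rw [sum_comm]
    exact sum_congr rfl fun i _ => sum_congr rfl fun j _ => by split_ifs <;> simp
  simp only [e2]
  calc ∑ x, ∑ y, ∑ i, ∑ j, (if x = p i then (if y = p j then b x y else 0) else 0)
      = ∑ x, ∑ i, ∑ y, ∑ j, (if x = p i then (if y = p j then b x y else 0) else 0) :=
        sum_congr rfl fun x _ => sum_comm
    _ = ∑ i, ∑ x, ∑ y, ∑ j, (if x = p i then (if y = p j then b x y else 0) else 0) := sum_comm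
    _ = ∑ i, ∑ y, ∑ j, (if y = p j then b (p i) y else 0) := by
        refine sum_congr rfl fun i _ => ?_
        rw [sum_eq_single (p i)]
        · simp
        · intro x _ hx; simp [hx]
        · simp
    _ = ∑ i, ∑ j, b (p i) (p j) := by
        refine sum_congr rfl fun i _ => ?_
        rw [sum_comm]
        simp

lemma sum_pk {T : (I → ℝ) → ℝ} {p : ι → I} (hp : Function.Injective p) :
    ∑ i, ∑ j, (if i = j then T (Pi.single (p i) 1) else
      mix T (Pi.single (p i) 1) (Pi.single (p j) 1) / 2) = ∑ i, ∑ j, pk T (p i) (p j) := by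
  simp only [pk, hp.eq_iff]

lemma pk_lower {b : I → I → ℝ} {T : (I → ℝ) → ℝ} (hT : IsQuartic T) {c : ℝ}
    (h : ∀ u, c * quart b u ≤ T u) {p : ι → I} (hp : Function.Injective p) :
    c * ∑ i, ∑ j, b (p i) (p j) ≤ ∑ i, ∑ j, pk T (p i) (p j) := by
  obtain ⟨ε, h1, h2⟩ := hT.exists_sign_le (fun i => (Pi.single (p i) 1 : I → ℝ))
  rw [← quart_signs b hp h1, ← sum_pk hp]
  exact (h _).trans h2

lemma pk_upper {b : I → I → ℝ} {T : (I → ℝ) → ℝ} (hT : IsQuartic T) {C : ℝ}
    (h : ∀ u, T u ≤ C * quart b u) {p : ι → I} (hp : Function.Injective p) :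
    ∑ i, ∑ j, pk T (p i) (p j) ≤ C * ∑ i, ∑ j, b (p i) (p j) := by
  obtain ⟨ε, h1, h2⟩ := hT.exists_sign_ge (fun i => (Pi.single (p i) 1 : I → ℝ))
  rw [← quart_signs b hp h1, ← sum_pk hp]
  exact h2.trans (h _)

lemma pk_cross {b : I → I → ℝ} {T : (I → ℝ) → ℝ} (hT : IsQuartic T) {η : ℝ}
    (h : ∀ u w, T (u + w) ≤ 8 * (T u + T w) + η * (quart b u + quart b w)) {p r : ι → I}
    (hp : Function.Injective p) (hr : Function.Injective r) (hpr : ∀ i j, p i ≠ r j) :
    2 * ∑ i, ∑ j, pk T (p i) (r j) ≤ 7 * ∑ i, ∑ j, pk T (p i) (p j) +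
      7 * ∑ i, ∑ j, pk T (r i) (r j) +
      η * (∑ i, ∑ j, b (p i) (p j) + ∑ i, ∑ j, b (r i) (r j)) := by
  set T' : (I → ℝ) × (I → ℝ) → ℝ := fun z => T (z.1 + z.2) + (-8 * T z.1 + -8 * T z.2) with hT'
  have hq : IsQuartic T' :=
    (hT.comp (AddMonoidHom.fst _ _ + AddMonoidHom.snd _ _)).add
      (((hT.comp (AddMonoidHom.fst _ _)).const_mul (-8)).add
        ((hT.comp (AddMonoidHom.snd _ _)).const_mul (-8)))
  obtain ⟨ε, h1, h2⟩ := hq.exists_sign_ge (ι := ι ⊕ ι)
    (Sum.elim (fun i => (Pi.single (p i) 1, 0)) (fun j => (0, Pi.single (r j) 1)))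
  have h3 := h (∑ i, ε (Sum.inl i) • (Pi.single (p i) 1 : I → ℝ))
    (∑ i, ε (Sum.inr i) • (Pi.single (r i) 1 : I → ℝ))
  rw [quart_signs b hp (fun i => h1 _), quart_signs b hr (fun i => h1 _)] at h3
  have e1 : ∑ i : ι ⊕ ι, ε i • (Sum.elim (fun i => (Pi.single (p i) 1, 0))
      (fun j => (0, Pi.single (r j) 1)) i : (I → ℝ) × (I → ℝ)) =
      (∑ i, ε (Sum.inl i) • (Pi.single (p i) 1 : I → ℝ),
        ∑ i, ε (Sum.inr i) • (Pi.single (r i) 1 : I → ℝ)) := by
    rw [Fintype.sum_sum_type]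
    ext x <;> simp [Prod.fst_sum, Prod.snd_sum]
  rw [e1] at h2
  have m1 : ∀ u v : I → ℝ, mix T' (u, 0) (v, 0) = -7 * mix T u v := fun u v => by
    simp only [mix, hT', Prod.mk_add_mk, Prod.mk_sub_mk, add_zero, sub_zero, hT.zero]; ring
  have m2 : ∀ u v : I → ℝ, mix T' (0, u) (0, v) = -7 * mix T u v := fun u v => by
    simp only [mix, hT', Prod.mk_add_mk, Prod.mk_sub_mk, add_zero, zero_add, sub_zero, hT.zero]
    ring
  have m3 : ∀ u v : I → ℝ, mix T' (u, 0) (0, v) = mix T u v := fun u v => by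
    simp only [mix, hT', Prod.mk_add_mk, Prod.mk_sub_mk, add_zero, zero_add, sub_zero, zero_sub,
      hT.zero, hT.even, ← sub_eq_add_neg]
    ring
  have t1 : ∀ u : I → ℝ, T' (u, 0) = -7 * T u := fun u => by
    simp only [hT', add_zero, hT.zero]; ring
  have t2 : ∀ u : I → ℝ, T' (0, u) = -7 * T u := fun u => by
    simp only [hT', zero_add, hT.zero]; ring
  have e2 : ∑ i : ι ⊕ ι, ∑ j : ι ⊕ ι, (if i = j then T' (Sum.elim (fun i => (Pi.single (p i) 1, 0))
      (fun j => (0, Pi.single (r j) 1)) i) else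
      mix T' (Sum.elim (fun i => (Pi.single (p i) 1, 0)) (fun j => (0, Pi.single (r j) 1)) i)
        (Sum.elim (fun i => (Pi.single (p i) 1, 0)) (fun j => (0, Pi.single (r j) 1)) j) / 2) =
      -7 * ∑ i, ∑ j, pk T (p i) (p j) + 2 * ∑ i, ∑ j, pk T (p i) (r j) +
        -7 * ∑ i, ∑ j, pk T (r i) (r j) := by
    simp only [Fintype.sum_sum_type, Sum.elim_inl, Sum.elim_inr, Sum.inl.injEq, Sum.inr.injEq,
      reduceCtorEq, if_false, sum_add_distrib, m1, m2, m3, t1, t2,
      hq.mix_comm (0, _) (_, 0)]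
    have f1 : ∀ q : ι → I, Function.Injective q →
        ∑ i, ∑ j, (if i = j then -7 * T (Pi.single (q i) 1) else
          -7 * mix T (Pi.single (q i) 1) (Pi.single (q j) 1) / 2) =
        -7 * ∑ i, ∑ j, pk T (q i) (q j) := by
      intro q hq'
      simp only [mul_sum, pk, hq'.eq_iff]
      exact sum_congr rfl fun i _ => sum_congr rfl fun j _ => by split_ifs <;> ring
    have f2 : ∑ i, ∑ j, mix T (Pi.single (p i) 1) (Pi.single (r j) 1) / 2 =
        ∑ i, ∑ j, pk T (p i) (r j) := by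
      simp only [pk, hpr, if_false]
    rw [f1 p hp, f1 r hr, sum_comm (f := fun j i =>
      mix T (Pi.single (p i) 1) (Pi.single (r j) 1) / 2), f2]
    ring
  rw [e2] at h2
  simp only [hT'] at h2
  linarith only [h3, h2]

end Points

end Pool.Agent.Work.MP_2b187c_an
end
end

-- merged part: Pool.Agent.Work.MP_2b187c_an.Space
section
-- merged part: Pool.Agent.Work.MP_2b187c_an.RankConfig
section
/-!
The rank kernel on square matrices over a finite field: it is good, but its quartic form is far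
from every quartic form satisfying the midpoint inequality of the fourth power of a norm.
-/

set_option autoImplicit false

open Finset Matrix

namespace Pool.Agent.Work.MP_2b187c_an

/-- Index set of the matrices. -/
abbrev Cube (m : ℕ) : Type := Fin m → Bool

/-- Square matrices of size two to the `m`. -/
abbrev Mat (m : ℕ) (F : Type) : Type := Matrix (Cube m) (Cube m) F

variable {m : ℕ} {F : Type} [Field F]

lemma rank_add_le' (A B : Mat m F) : (A + B).rank ≤ A.rank + B.rank := by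
  unfold Matrix.rank
  refine le_trans (Submodule.finrank_mono ?_)
    (Submodule.finrank_add_le_finrank_add_finrank _ _)
  rintro _ ⟨v, rfl⟩
  rw [Matrix.mulVecLin_add]
  exact Submodule.add_mem_sup ⟨v, rfl⟩ ⟨v, rfl⟩

lemma rank_units (U V : (Mat m F)ˣ) (d : Mat m F) :
    ((U : Mat m F) * d * (V : Mat m F)).rank = d.rank := by
  rw [Matrix.rank_mul_eq_left_of_isUnit_det _ _ (Matrix.isUnits_det_units V),
    Matrix.rank_mul_eq_right_of_isUnit_det _ _ (Matrix.isUnits_det_units U)]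

lemma rank_sub_comm (A B : Mat m F) : (A - B).rank = (B - A).rank := by
  have := rank_units (-1 : (Mat m F)ˣ) 1 (B - A)
  simpa using this

lemma rank_le_pow (A : Mat m F) : A.rank ≤ 2 ^ m := by
  simpa using Matrix.rank_le_card_width A

/-- The kernel as a function of the difference. -/
noncomputable def kphi (d : Mat m F) : ℝ :=
  ∑ k ∈ range (m + 1), (1 / 8 : ℝ) ^ k * if d.rank ≤ 2 ^ k then 1 else 0

/-- The rank kernel. -/
noncomputable def kb (x y : Mat m F) : ℝ := kphi (x - y)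

lemma kphi_term_nonneg (d : Mat m F) (k : ℕ) :
    0 ≤ (1 / 8 : ℝ) ^ k * if d.rank ≤ 2 ^ k then 1 else 0 :=
  mul_nonneg (by positivity) (by split_ifs <;> norm_num)

lemma kphi_nonneg (d : Mat m F) : 0 ≤ kphi d := sum_nonneg fun k _ => kphi_term_nonneg d k

lemma one_le_kphi {d : Mat m F} (hd : d.rank ≤ 1) : 1 ≤ kphi d := by
  have := single_le_sum (f := fun k => (1 / 8 : ℝ) ^ k * if d.rank ≤ 2 ^ k then 1 else 0)
    (fun k _ => kphi_term_nonneg d k) (mem_range.2 (Nat.succ_pos m))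
  simp only [pow_zero, hd, if_true, mul_one] at this
  exact this

lemma kphi_le_two (d : Mat m F) : kphi d ≤ 2 := by
  have h1 : kphi d ≤ ∑ k ∈ range (m + 1), (1 / 2 : ℝ) ^ k := by
    refine sum_le_sum fun k _ => ?_
    have : (1 / 8 : ℝ) ^ k ≤ (1 / 2) ^ k := pow_le_pow_left₀ (by norm_num) (by norm_num) k
    split_ifs
    · simpa using this
    · simp
  exact h1.trans (sum_geometric_two_le _)

lemma kphi_of_rank {d : Mat m F} (hd : d.rank = 2 ^ m) : kphi d = (1 / 8) ^ m := by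
  unfold kphi
  rw [sum_range_succ, sum_eq_zero, hd]
  · simp
  · intro k hk
    rw [hd, if_neg, mul_zero]
    exact not_le.2 (Nat.pow_lt_pow_right (by norm_num) (mem_range.1 hk))

lemma kphi_units (U V : (Mat m F)ˣ) (d : Mat m F) :
    kphi ((U : Mat m F) * d * (V : Mat m F)) = kphi d := by
  simp only [kphi, rank_units]

lemma kphi_shift (d : Mat m F) :
    ∑ k ∈ range (m + 1), ((1 / 8 : ℝ) ^ k * if d.rank ≤ 2 ^ (k + 1) then 1 else 0) ≤
      9 * kphi d := by
  set a : ℕ → ℝ := fun k => (1 / 8 : ℝ) ^ k * if d.rank ≤ 2 ^ k then 1 else 0 with ha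
  have e1 : ∑ k ∈ range (m + 1), ((1 / 8 : ℝ) ^ k * if d.rank ≤ 2 ^ (k + 1) then 1 else 0) =
      8 * ∑ k ∈ range (m + 1), a (k + 1) := by
    rw [mul_sum]
    refine sum_congr rfl fun k _ => ?_
    simp only [ha, pow_succ (1 / 8 : ℝ)]
    ring
  have e2 : ∑ k ∈ range (m + 1), a (k + 1) + a 0 = kphi d + a (m + 1) := by
    rw [← sum_range_succ' a (m + 1), sum_range_succ]; rfl
  have h1 : 0 ≤ a 0 := kphi_term_nonneg d 0
  have h2 : a m ≤ kphi d := single_le_sum (f := a) (fun k _ => kphi_term_nonneg d k)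
    (self_mem_range_succ m)
  have h3 : 8 * a (m + 1) ≤ a m := by
    simp only [ha, if_pos (rank_le_pow d), pow_succ (1 / 8 : ℝ)]
    have : (0 : ℝ) < (1 / 8) ^ m := by positivity
    split_ifs <;> linarith only [this]
  rw [e1]
  linarith only [e2, h1, h2, h3]

variable [Fintype F] [DecidableEq F]

lemma bil_mono {I : Type} [Fintype I] {b b' : I → I → ℝ} (h : ∀ x y, b x y ≤ b' x y) {s t : I → ℝ}
    (hs : ∀ x, 0 ≤ s x) (ht : ∀ x, 0 ≤ t x) : bil b s t ≤ bil b' s t :=
  sum_le_sum fun x _ => sum_le_sum fun y _ =>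
    mul_le_mul_of_nonneg_right (mul_le_mul_of_nonneg_right (h x y) (hs x)) (ht y)

lemma bil_sum {I : Type} [Fintype I] (n : ℕ) (c : ℕ → ℝ) (b : ℕ → I → I → ℝ) (s t : I → ℝ) :
    bil (fun x y => ∑ k ∈ range n, c k * b k x y) s t = ∑ k ∈ range n, c k * bil (b k) s t := by
  simp only [bil, sum_mul, mul_sum]
  calc ∑ x, ∑ y, ∑ k ∈ range n, c k * b k x y * s x * t y
      = ∑ x, ∑ k ∈ range n, ∑ y, c k * b k x y * s x * t y := sum_congr rfl fun x _ => sum_comm
    _ = ∑ k ∈ range n, ∑ x, ∑ y, c k * b k x y * s x * t y := sum_comm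
    _ = _ := sum_congr rfl fun k _ => sum_congr rfl fun x _ => sum_congr rfl fun y _ => by ring

omit [DecidableEq F] in
lemma goodKernel_kb : GoodKernel (kb : Mat m F → Mat m F → ℝ) := by
  refine ⟨fun x y => kphi_nonneg _, fun x => one_le_kphi (by simp), fun s t hs ht => ?_⟩
  set th : ℕ → Mat m F → Mat m F → ℝ := fun k x y => if (x - y).rank ≤ 2 ^ k then 1 else 0
    with hth
  have e1 : bil kb s t = ∑ k ∈ range (m + 1), (1 / 8 : ℝ) ^ k * bil (th k) s t :=
    bil_sum (m + 1) (fun k => (1 / 8 : ℝ) ^ k) th s t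
  have h1 : ∀ k, bil (th k) s t ≤ bil (th (k + 1)) s s + bil (th (k + 1)) t t := by
    intro k
    have := threshold_cs (R := fun x y : Mat m F => (x - y).rank ≤ 2 ^ k)
      (R' := fun x y : Mat m F => (x - y).rank ≤ 2 ^ (k + 1))
      (fun x y h => by rwa [rank_sub_comm])
      (fun x y z h1 h2 => by
        have := rank_add_le' (x - y) (y - z)
        rw [sub_add_sub_cancel] at this
        rw [pow_succ]
        omega) hs ht
    convert this
  have h2 : ∀ u : Mat m F → ℝ, (∀ x, 0 ≤ u x) →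
      ∑ k ∈ range (m + 1), (1 / 8 : ℝ) ^ k * bil (th (k + 1)) u u ≤ 9 * bil kb u u := by
    intro u hu
    rw [← bil_sum (m + 1) (fun k => (1 / 8 : ℝ) ^ k) (fun k => th (k + 1)) u u]
    refine (bil_mono (b' := fun x y => 9 * kb x y) (fun x y => kphi_shift (x - y)) hu hu).trans ?_
    simp only [bil, mul_sum, mul_assoc, le_refl]
  have h3 : ∑ k ∈ range (m + 1), (1 / 8 : ℝ) ^ k * bil (th k) s t ≤
      ∑ k ∈ range (m + 1), (1 / 8 : ℝ) ^ k * bil (th (k + 1)) s s +
      ∑ k ∈ range (m + 1), (1 / 8 : ℝ) ^ k * bil (th (k + 1)) t t := by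
    rw [← sum_add_distrib]
    refine sum_le_sum fun k _ => ?_
    rw [← mul_add]
    exact mul_le_mul_of_nonneg_left (h1 k) (by positivity)
  have := h2 s hs
  have := h2 t ht
  linarith

/-- The symmetries. -/
abbrev Sym (m : ℕ) (F : Type) [Field F] : Type := (Mat m F)ˣ × (Mat m F)ˣ × Mat m F

/-- The action of the symmetries. -/
def act (g : Sym m F) (x : Mat m F) : Mat m F := (g.1 : Mat m F) * x * (g.2.1 : Mat m F) + g.2.2

omit [Fintype F] [DecidableEq F] in
lemma act_sub (g : Sym m F) (x y : Mat m F) :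
    act g x - act g y = (g.1 : Mat m F) * (x - y) * (g.2.1 : Mat m F) := by
  simp only [act, mul_sub, sub_mul]; abel

omit [Fintype F] [DecidableEq F] in
lemma units_mul_eq_zero {U V : (Mat m F)ˣ} {d : Mat m F}
    (h : (U : Mat m F) * d * (V : Mat m F) = 0) : d = 0 := by
  rwa [Units.mul_left_eq_zero, Units.mul_right_eq_zero] at h

omit [Fintype F] [DecidableEq F] in
lemma act_injective (g : Sym m F) : Function.Injective (act g) := by
  intro x y h
  have := act_sub g x y
  rw [h, sub_self] at this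
  exact sub_eq_zero.1 (units_mul_eq_zero this.symm)

omit [Fintype F] [DecidableEq F] in
lemma kb_act (g : Sym m F) (x y : Mat m F) : kb (act g x) (act g y) = kb x y := by
  simp only [kb, act_sub, kphi_units]

/-- Averaged pair kernel. -/
noncomputable def avg (T : (Mat m F → ℝ) → ℝ) (d : Mat m F) : ℝ :=
  ∑ g : Sym m F, pk T (act g d) (act g 0)

lemma avg_sub (T : (Mat m F → ℝ) → ℝ) (x y : Mat m F) :
    ∑ g : Sym m F, pk T (act g x) (act g y) = avg T (x - y) := by
  simp only [avg, Fintype.sum_prod_type]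
  refine sum_congr rfl fun U _ => sum_congr rfl fun V _ => ?_
  rw [← Equiv.sum_comp (Equiv.addRight ((U : Mat m F) * y * (V : Mat m F)))
    (fun W => pk T (act (U, V, W) (x - y)) (act (U, V, W) 0))]
  refine sum_congr rfl fun W _ => ?_
  congr 1
  · simp only [act, Equiv.coe_addRight, mul_sub, sub_mul]; abel
  · simp only [act, Equiv.coe_addRight, mul_zero, zero_mul]; abel

lemma avg_units (T : (Mat m F → ℝ) → ℝ) (U₀ V₀ : (Mat m F)ˣ) (d : Mat m F) :
    avg T ((U₀ : Mat m F) * d * (V₀ : Mat m F)) = avg T d := by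
  unfold avg
  refine Fintype.sum_equiv ((Equiv.mulRight U₀).prodCongr ((Equiv.mulLeft V₀).prodCongr
    (Equiv.refl _))) _ _ fun g => ?_
  simp [act, mul_assoc]

/-- The model matrices: rank two to the `k`. -/
def tau (m : ℕ) (F : Type) [Field F] (k : ℕ) : Mat m F :=
  Matrix.of fun i j => if ∀ l : Fin m, l.val < k → i l = j l then 1 else 0

omit [Fintype F] [DecidableEq F] in
lemma tau_ne_zero (k : ℕ) : tau m F k ≠ 0 := by
  intro h
  have := congrFun (congrFun h (fun _ => true)) (fun _ => true)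
  simp [tau] at this

omit [Fintype F] [DecidableEq F] in
lemma tau_top : tau m F m = 1 := by
  ext i j
  simp only [tau, Matrix.of_apply, Matrix.one_apply, Fin.is_lt, forall_true_left]
  congr 1
  exact propext ⟨fun h => funext h, fun h l => h ▸ rfl⟩

omit [Fintype F] [DecidableEq F] in
lemma rank_tau_zero : (tau m F 0).rank ≤ 1 := by
  have : tau m F 0 = Matrix.vecMulVec 1 1 := by
    ext i j; simp [tau, Matrix.vecMulVec_apply]
  rw [this]
  exact Matrix.rank_vecMulVec_le _ _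

/-- Equivalence to a model matrix. -/
def IsType (k : ℕ) (d : Mat m F) : Prop :=
  ∃ U V : (Mat m F)ˣ, d = (U : Mat m F) * tau m F k * (V : Mat m F)

omit [Fintype F] [DecidableEq F] in
lemma IsType.ne_zero {k : ℕ} {d : Mat m F} (h : IsType k d) : d ≠ 0 := by
  obtain ⟨U, V, rfl⟩ := h
  exact fun h => tau_ne_zero k (units_mul_eq_zero h)

lemma IsType.avg_eq {k : ℕ} {d : Mat m F} (h : IsType k d) (T : (Mat m F → ℝ) → ℝ) :
    avg T d = avg T (tau m F k) := by
  obtain ⟨U, V, rfl⟩ := h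
  exact avg_units T U V _

omit [Fintype F] [DecidableEq F] in
lemma IsType.kphi_eq {k : ℕ} {d : Mat m F} (h : IsType k d) : kphi d = kphi (tau m F k) := by
  obtain ⟨U, V, rfl⟩ := h
  exact kphi_units U V _

/-- Invertible diagonal matrices. -/
def diagUnit (f : Cube m → F) (hf : ∀ i, f i ≠ 0) : (Mat m F)ˣ :=
  ⟨diagonal f, diagonal fun i => (f i)⁻¹, by simp [diagonal_mul_diagonal, hf],
    by simp [diagonal_mul_diagonal, hf]⟩

/-- Flipping one coordinate. -/
def flipc (k : Fin m) (j : Cube m) : Cube m := Function.update j k (!j k)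

omit [Fintype F] [DecidableEq F] in
lemma mul_flip (k : Fin m) (A : Mat m F) (i j : Cube m) :
    (A * (Matrix.of fun i j => if i = flipc k j then 1 else 0 : Mat m F)) i j =
      A i (flipc k j) := by
  simp [Matrix.mul_apply]

/-- The permutation matrix of the flip. -/
def flipUnit (k : Fin m) : (Mat m F)ˣ :=
  have h : (Matrix.of fun i j => if i = flipc k j then 1 else 0 : Mat m F) *
      (Matrix.of fun i j => if i = flipc k j then 1 else 0 : Mat m F) = 1 := by
    ext i j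
    rw [mul_flip]
    simp [flipc, Matrix.one_apply]
  ⟨Matrix.of fun i j => if i = flipc k j then 1 else 0,
    Matrix.of fun i j => if i = flipc k j then 1 else 0, h, h⟩

/-- First family of the configuration. -/
def aa (k : Fin m) (α : Fˣ) : Mat m F :=
  diagonal (fun i => if i k then (α : F) else (α : F)⁻¹) * tau m F (k + 1)

/-- Second family of the configuration. -/
def bb (k : Fin m) (α : Fˣ) : Mat m F := aa k α * (flipUnit k : (Mat m F)ˣ)

omit [Fintype F] [DecidableEq F] in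
lemma aa_sub (k : Fin m) {α β : Fˣ} (h : α ≠ β) :
    ∃ U : (Mat m F)ˣ, aa k α - aa k β = (U : Mat m F) * tau m F (k + 1) := by
  have h1 : (α : F) ≠ β := fun h' => h (Units.ext h')
  refine ⟨diagUnit (fun i => (if i k then (α : F) else (α : F)⁻¹) -
    (if i k then (β : F) else (β : F)⁻¹)) (fun i => ?_), ?_⟩
  · split_ifs
    · exact sub_ne_zero.2 h1
    · exact sub_ne_zero.2 fun h' => h1 (inv_injective h')
  · simp only [aa, diagUnit, ← sub_mul, diagonal_sub]

omit [Fintype F] [DecidableEq F] in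
lemma isType_aa (k : Fin m) {α β : Fˣ} (h : α ≠ β) : IsType (k + 1) (aa k α - aa k β) := by
  obtain ⟨U, hU⟩ := aa_sub k h
  exact ⟨U, 1, by simp [hU]⟩

omit [Fintype F] [DecidableEq F] in
lemma isType_bb (k : Fin m) {α β : Fˣ} (h : α ≠ β) : IsType (k + 1) (bb k α - bb k β) := by
  obtain ⟨U, hU⟩ := aa_sub k h
  exact ⟨U, flipUnit k, by simp only [bb, ← sub_mul, hU]⟩

omit [Fintype F] [DecidableEq F] in
lemma isType_ab (k : Fin m) (α β : Fˣ) : IsType k (aa k α - bb k β) := by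
  have hα : (α : F) ≠ 0 := α.ne_zero
  have hβ : (β : F) ≠ 0 := β.ne_zero
  refine ⟨diagUnit (fun i => if i k then 1 else -((α : F) * β)⁻¹) (fun i => ?_),
    diagUnit (fun j => if j k then (α : F) else -(β : F)) (fun i => ?_), ?_⟩
  · split_ifs <;> simp [hα, hβ]
  · split_ifs <;> simp [hα, hβ]
  · ext i j
    have e1 : ∀ j' : Cube m, (∀ l : Fin m, l.val < k.val + 1 → i l = j' l) ↔
        (∀ l : Fin m, l.val < k.val → i l = j' l) ∧ i k = j' k := by
      intro j'
      constructor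
      · intro h
        exact ⟨fun l hl => h l (by omega), h k (by omega)⟩
      · rintro ⟨h1, h2⟩ l hl
        rcases (Nat.lt_succ_iff.1 hl).lt_or_eq with h3 | h3
        · exact h1 l h3
        · rw [Fin.ext h3]; exact h2
    have e2 : (∀ l : Fin m, l.val < k.val → i l = flipc k j l) ↔
        (∀ l : Fin m, l.val < k.val → i l = j l) := by
      refine forall_congr' fun l => forall_congr' fun hl => ?_
      rw [flipc, Function.update_of_ne (by rintro rfl; omega)]
    have e3 : flipc k j k = !j k := by simp [flipc]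
    simp only [Matrix.sub_apply, bb, flipUnit, mul_flip, aa, diagUnit, diagonal_mul, mul_diagonal,
      tau, Matrix.of_apply, e1, e2, e3]
    by_cases h : ∀ l : Fin m, l.val < k.val → i l = j l
    · simp only [eq_true h, true_and, if_true]
      cases i k <;> cases j k <;> simp [hα]
      all_goals field_simp
    · simp only [eq_false h, false_and, if_false, mul_zero, zero_mul, sub_zero]

omit [Fintype F] [DecidableEq F] in
lemma isType_cc {α β : Fˣ} (h : α ≠ β) :
    IsType 0 ((α : F) • tau m F 0 - (β : F) • tau m F 0) := by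
  have h1 : (α : F) ≠ β := fun h' => h (Units.ext h')
  refine ⟨diagUnit (fun _ => (α : F) - β) (fun _ => sub_ne_zero.2 h1), 1, ?_⟩
  ext i j
  simp [diagUnit, sub_mul]

omit [Fintype F] [DecidableEq F] in
lemma injective_of_isType {ι : Type} {p : ι → Mat m F} {k : ℕ}
    (h : ∀ i j, i ≠ j → IsType k (p i - p j)) : Function.Injective p := by
  intro i j hij
  by_contra hne
  exact (h i j hne).ne_zero (by rw [hij, sub_self])

omit [Fintype F] [DecidableEq F] in
lemma sum_clique {ι : Type} [Fintype ι] [DecidableEq ι] {p : ι → Mat m F} (f : Mat m F → ℝ)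
    {y : ℝ} (h : ∀ i j, i ≠ j → f (p i - p j) = y) :
    ∑ i, ∑ j, f (p i - p j) =
      Fintype.card ι * f 0 + Fintype.card ι * (Fintype.card ι - 1) * y := by
  have e : ∀ i, ∑ j, f (p i - p j) = f 0 + (Fintype.card ι - 1) * y := by
    intro i
    have : ∀ j, f (p i - p j) = y + if i = j then f 0 - y else 0 := by
      intro j
      split_ifs with h1
      · rw [h1, sub_self]; ring
      · rw [h i j h1]; ring
    simp only [this, sum_add_distrib, sum_ite_eq, mem_univ, if_true, sum_const, card_univ,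
      nsmul_eq_mul]
    ring
  simp only [e, sum_const, card_univ, nsmul_eq_mul]
  ring

lemma sum_avg {ι : Type} [Fintype ι] (T : (Mat m F → ℝ) → ℝ) (p r : ι → Mat m F) :
    ∑ g : Sym m F, ∑ i, ∑ j, pk T (act g (p i)) (act g (r j)) = ∑ i, ∑ j, avg T (p i - r j) := by
  rw [sum_comm]
  refine sum_congr rfl fun i _ => ?_
  rw [sum_comm]
  exact sum_congr rfl fun j _ => avg_sub T _ _

lemma cross_avg {ι : Type} [Fintype ι] [DecidableEq ι] {T : (Mat m F → ℝ) → ℝ} (hT : IsQuartic T)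
    {η : ℝ} (hx : ∀ u w, T (u + w) ≤ 8 * (T u + T w) + η * (quart kb u + quart kb w))
    {p r : ι → Mat m F} (hp : Function.Injective p) (hr : Function.Injective r)
    (hpr : ∀ i j, p i ≠ r j) :
    2 * ∑ i, ∑ j, avg T (p i - r j) ≤ 7 * ∑ i, ∑ j, avg T (p i - p j) +
      7 * ∑ i, ∑ j, avg T (r i - r j) + (Fintype.card (Sym m F) : ℝ) *
      (η * (∑ i, ∑ j, kphi (p i - p j) + ∑ i, ∑ j, kphi (r i - r j))) := by
  have h := sum_le_sum (s := (univ : Finset (Sym m F))) fun g _ =>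
    pk_cross hT hx ((act_injective g).comp hp) ((act_injective g).comp hr)
      (fun i j h => hpr i j (act_injective g h))
  simp only [Function.comp_apply, kb_act] at h
  simp only [sum_add_distrib, ← mul_sum, sum_avg, sum_const, card_univ, nsmul_eq_mul] at h
  simp only [kb] at h
  linarith

theorem finite_bound {T : (Mat m F → ℝ) → ℝ} (hT : IsQuartic T) {c C η : ℝ} (hc : 0 ≤ c)
    (hC : 0 ≤ C) (hη : 0 ≤ η) (hl : ∀ u, c * quart kb u ≤ T u) (hu : ∀ u, T u ≤ C * quart kb u)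
    (hx : ∀ u w, T (u + w) ≤ 8 * (T u + T w) + η * (quart kb u + quart kb w)) :
    c ≤ C * (7 / 8) ^ m + 7 ^ m * (4 * C / (Fintype.card Fˣ : ℝ) + 2 * η) := by
  set N : ℝ := (Fintype.card Fˣ : ℝ) with hN
  set G : ℝ := (Fintype.card (Sym m F) : ℝ) with hG
  have hN1 : 1 ≤ N := by rw [hN]; exact_mod_cast Fintype.card_pos
  have hG0 : 0 < G := by rw [hG]; exact_mod_cast Fintype.card_pos
  have low : ∀ {ι : Type} [Fintype ι] [DecidableEq ι] {p : ι → Mat m F}, Function.Injective p →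
      G * (c * ∑ i, ∑ j, kphi (p i - p j)) ≤ ∑ i, ∑ j, avg T (p i - p j) := by
    intro ι _ _ p hp
    rw [← sum_avg, hG, ← nsmul_eq_mul, ← card_univ, ← sum_const]
    refine sum_le_sum fun g _ => ?_
    have := pk_lower hT hl ((act_injective g).comp hp)
    simp only [Function.comp_apply, kb_act] at this
    exact this
  have upp : ∀ {ι : Type} [Fintype ι] [DecidableEq ι] {p : ι → Mat m F}, Function.Injective p →
      ∑ i, ∑ j, avg T (p i - p j) ≤ G * (C * ∑ i, ∑ j, kphi (p i - p j)) := by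
    intro ι _ _ p hp
    rw [← sum_avg, hG, ← nsmul_eq_mul, ← card_univ, ← sum_const]
    refine sum_le_sum fun g _ => ?_
    have := pk_upper hT hu ((act_injective g).comp hp)
    simp only [Function.comp_apply, kb_act] at this
    exact this
  have hkle : ∀ p : Fˣ → Mat m F, ∑ i, ∑ j, kphi (p i - p j) ≤ 2 * N ^ 2 := by
    intro p
    calc ∑ i, ∑ j, kphi (p i - p j) ≤ ∑ _i : Fˣ, ∑ _j : Fˣ, (2 : ℝ) :=
          sum_le_sum fun i _ => sum_le_sum fun j _ => kphi_le_two _
      _ = 2 * N ^ 2 := by simp only [sum_const, card_univ, nsmul_eq_mul, ← hN]; ring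
  have hk0 : ∀ p : Fˣ → Mat m F, 0 ≤ ∑ i, ∑ j, kphi (p i - p j) := fun p =>
    sum_nonneg fun i _ => sum_nonneg fun j _ => kphi_nonneg _
  have h0 : avg T 0 ≤ 2 * C * G := by
    have := upp (ι := Unit) (p := fun _ => 0) (fun _ _ _ => rfl)
    simp only [univ_unique, sum_singleton, sub_self] at this
    have h2 := kphi_le_two (0 : Mat m F)
    have h3 : G * (C * kphi (0 : Mat m F)) ≤ G * (C * 2) := by gcongr
    linarith
  set y : ℕ → ℝ := fun k => N * avg T 0 + N * (N - 1) * avg T (tau m F k) with hy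
  set D : ℝ := 2 * C * G * N + 2 * η * G * N ^ 2 with hD
  have hD0 : 0 ≤ D := by positivity
  have step : ∀ k : Fin m, y k ≤ 7 * y (k + 1) + D := by
    intro k
    have ia := injective_of_isType (fun i j h => isType_aa (F := F) k (α := i) (β := j) h)
    have ib := injective_of_isType (fun i j h => isType_bb (F := F) k (α := i) (β := j) h)
    have sa : ∑ i, ∑ j, avg T (aa k i - aa k j) = y (k + 1) :=
      sum_clique (avg T) (fun i j h => (isType_aa k h).avg_eq T)
    have sb : ∑ i, ∑ j, avg T (bb k i - bb k j) = y (k + 1) :=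
      sum_clique (avg T) (fun i j h => (isType_bb k h).avg_eq T)
    have sab : ∑ i, ∑ j, avg T (aa k i - bb k j) = N ^ 2 * avg T (tau m F k) := by
      simp only [(isType_ab k _ _).avg_eq T, sum_const, card_univ, nsmul_eq_mul, ← hN]; ring
    have hy0 : 0 ≤ y (k + 1) := by
      have := low ia
      rw [sa] at this
      have h2 := hk0 (aa k)
      exact le_trans (mul_nonneg hG0.le (mul_nonneg hc h2)) this
    have cr : 2 * (N ^ 2 * avg T (tau m F k)) ≤ 7 * y (k + 1) + 7 * y (k + 1) +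
        G * (η * (2 * N ^ 2 + 2 * N ^ 2)) := by
      have := cross_avg hT hx ia ib
        (fun i j h => (isType_ab k i j).ne_zero (sub_eq_zero.2 h))
      rw [sab, sa, sb, ← hG] at this
      refine this.trans ?_
      have h1 := hkle (aa k)
      have h2 := hkle (bb k)
      have h3 := mul_le_mul_of_nonneg_left (mul_le_mul_of_nonneg_left (add_le_add h1 h2) hη) hG0.le
      linarith only [h3]
    have h5 : N * (N - 1) * avg T (tau m F k) ≤ 7 * y (k + 1) + 2 * η * G * N ^ 2 := by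
      rcases le_total 0 (avg T (tau m F k)) with h | h
      · linarith only [cr, h, mul_nonneg_of_nonpos_of_nonpos (Mathlib.Tactic.Linarith.sub_nonpos_of_le (Mathlib.Tactic.Linarith.natCast_nonneg ℝ (Fintype.card Fˣ))) (Mathlib.Tactic.Linarith.sub_nonpos_of_le h)]
      · have : N * (N - 1) * avg T (tau m F k) ≤ 0 :=
          mul_nonpos_of_nonneg_of_nonpos (mul_nonneg (by linarith) (by linarith)) h
        have : 0 ≤ 2 * η * G * N ^ 2 := by positivity
        linarith
    have h6 : N * avg T 0 ≤ N * (2 * C * G) := by gcongr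
    simp only [hy] at h5 ⊢
    linarith only [h6, h5]
  have iter : ∀ k, k ≤ m → y 0 + D / 6 ≤ 7 ^ k * (y k + D / 6) := by
    intro k
    induction k with
    | zero => intro _; simp
    | succ k ih =>
      intro hk
      have h1 := step ⟨k, hk⟩
      have h2 := ih (by omega)
      simp only at h1
      have h3 : (7 : ℝ) ^ k * (y k + D / 6) ≤ 7 ^ k * (7 * (y (k + 1) + D / 6)) := by
        gcongr; linarith only [h1]
      rw [pow_succ]
      linarith only [h2, h3]
  have bot : G * (c * N ^ 2) ≤ y 0 := by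
    have ic := injective_of_isType (fun i j h => isType_cc (m := m) (F := F) (α := i) (β := j) h)
    have h1 := low ic
    rw [sum_clique (avg T) (fun i j h => (isType_cc h).avg_eq T),
      sum_clique kphi (fun i j h => (isType_cc h).kphi_eq)] at h1
    refine le_trans ?_ h1
    have h2 := one_le_kphi (d := (0 : Mat m F)) (by simp)
    have h3 := one_le_kphi (rank_tau_zero (m := m) (F := F))
    rw [← hN]
    gcongr
    nlinarith only [h2, h3, hN1, mul_nonneg (show 0 ≤ N by linarith) (show 0 ≤ N - 1 by linarith)]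
  have top : y m ≤ G * (C * (2 * N + N ^ 2 * (1 / 8) ^ m)) := by
    have ht : ∀ i j : Fˣ, i ≠ j → IsType m ((i : F) • (1 : Mat m F) - (j : F) • (1 : Mat m F)) := by
      intro i j h
      have h1 : (i : F) ≠ j := fun h' => h (Units.ext h')
      refine ⟨diagUnit (fun _ => (i : F) - j) (fun _ => sub_ne_zero.2 h1), 1, ?_⟩
      ext a b
      simp [diagUnit, sub_mul, tau_top]
    have h1 := upp (injective_of_isType ht)
    rw [sum_clique (avg T) (fun i j h => (ht i j h).avg_eq T),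
      sum_clique kphi (fun i j h => (ht i j h).kphi_eq)] at h1
    refine h1.trans ?_
    have h2 := kphi_le_two (0 : Mat m F)
    have h3 : kphi (tau m F m) = (1 / 8) ^ m := kphi_of_rank (by simp [tau_top])
    have h4 : (0 : ℝ) < (1 / 8) ^ m := by positivity
    rw [← hN, h3]
    refine mul_le_mul_of_nonneg_left (mul_le_mul_of_nonneg_left ?_ hC) hG0.le
    linarith only [h2, h4, mul_nonneg_of_nonpos_of_nonpos (Mathlib.Tactic.Linarith.sub_nonpos_of_le (Mathlib.Tactic.Linarith.natCast_nonneg ℝ (Fintype.card Fˣ))) (Mathlib.Tactic.Linarith.sub_nonpos_of_le h2), mul_nonneg_of_nonpos_of_nonpos (Mathlib.Tactic.Linarith.sub_nonpos_of_le (Mathlib.Tactic.Linarith.natCast_nonneg ℝ (Fintype.card Fˣ))) (le_of_lt (Mathlib.Tactic.Linarith.sub_neg_of_lt h4))]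
  have h7 := iter m le_rfl
  have h8 : (7 : ℝ) ^ m * (y m + D / 6) ≤ 7 ^ m * (G * (C * (2 * N + N ^ 2 * (1 / 8) ^ m)) + D) := by
    gcongr; linarith only [hD0]
  have h9 : G * N ^ 2 * c ≤
      G * N ^ 2 * (C * (7 / 8) ^ m + 7 ^ m * (4 * C / N + 2 * η)) := by
    have e : G * N ^ 2 * (C * (7 / 8) ^ m + 7 ^ m * (4 * C / N + 2 * η)) =
        7 ^ m * (G * (C * (2 * N + N ^ 2 * (1 / 8) ^ m)) + D) := by
      rw [hD, show ((7 : ℝ) / 8) ^ m = 7 ^ m * (1 / 8) ^ m by rw [← mul_pow]; norm_num]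
      field_simp
      ring
    rw [e]
    linarith only [hD0, bot, h7, h8]
  exact le_of_mul_le_mul_left h9 (by positivity)

end Pool.Agent.Work.MP_2b187c_an
end

-- merged part: Pool.Agent.Work.MP_2b187c_an.Walk
section
/-!
Equivalent norms on sums of normed spaces with exponent four: a greedy walk, and decay of
quadratic forms on far summands.
-/

set_option autoImplicit false

open Filter Topology
open scoped ENNReal

namespace Pool.Agent.Work.MP_2b187c_an

instance factFour : Fact ((1 : ℝ≥0∞) ≤ 4) := ⟨by norm_num⟩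

variable {J : Type} [DecidableEq J] {E : J → Type} [∀ j, NormedAddCommGroup (E j)]
  [∀ j, NormedSpace ℝ (E j)]

omit [DecidableEq J] [∀ j, NormedSpace ℝ (E j)] in
lemma hasSum_four (x : lp E 4) : HasSum (fun j => ‖x j‖ ^ 4) (‖x‖ ^ 4) := by
  have h := lp.hasSum_norm (p := 4) (by norm_num) x
  have e : (4 : ℝ≥0∞).toReal = ((4 : ℕ) : ℝ) := by norm_num
  simpa only [e, Real.rpow_natCast] using h

omit [DecidableEq J] [∀ j, NormedSpace ℝ (E j)] in
lemma norm_add_four {u v : lp E 4} (h : ∀ j, u j = 0 ∨ v j = 0) :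
    ‖u + v‖ ^ 4 = ‖u‖ ^ 4 + ‖v‖ ^ 4 := by
  refine (hasSum_four (u + v)).unique ?_
  convert (hasSum_four u).add (hasSum_four v) using 2 with j
  rw [lp.coeFn_add, Pi.add_apply]
  rcases h j with h1 | h1 <;> simp [h1]

omit [∀ j, NormedSpace ℝ (E j)] in
lemma norm_single_four (j : J) (h : E j) : ‖(lp.single 4 j h : lp E 4)‖ = ‖h‖ :=
  lp.norm_single (by norm_num) j h

omit [∀ j, NormedSpace ℝ (E j)] in
lemma norm_add_single {u : lp E 4} {j : J} (hj : u j = 0) (h : E j) :
    ‖u + lp.single 4 j h‖ ^ 4 = ‖u‖ ^ 4 + ‖h‖ ^ 4 := by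
  rw [norm_add_four, norm_single_four]
  intro i
  by_cases hi : i = j
  · left; rw [hi]; exact hj
  · right; exact lp.single_apply_ne 4 j h hi

omit [∀ j, NormedSpace ℝ (E j)] in
lemma finite_add_single {u : lp E 4} (hu : {i | u i ≠ 0}.Finite) (j : J) (h : E j) :
    {i | (u + lp.single 4 j h : lp E 4) i ≠ 0}.Finite := by
  refine (hu.insert j).subset fun i hi => ?_
  by_cases hij : i = j
  · exact Or.inl hij
  · right
    have e : (u + lp.single 4 j h : lp E 4) i = u i := by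
      rw [lp.coeFn_add, Pi.add_apply, lp.single_apply_ne 4 j h hij, add_zero]
    intro h0
    exact hi (e.trans h0)

theorem walk [∀ j, CompleteSpace (E j)] {N : lp E 4 → ℝ} (hadd : ∀ x y, N (x + y) ≤ N x + N y) {a b : ℝ} (ha : 0 < a)
    (hb : 0 < b) (hN : ∀ x, a * ‖x‖ ≤ N x ∧ N x ≤ b * ‖x‖) {j₀ : J} {h₀ : E j₀}
    (hh₀ : ‖h₀‖ = 1) :
    ∃ ε > 0, ∃ x : lp E 4, x ≠ 0 ∧ ∀ t : ℝ, 0 < t → t ≤ 1 → ∃ S : Finset J, ∀ j ∉ S,
      ∀ h : E j, ‖h‖ = 1 → N x + ε * t ^ 4 ≤ N (x + lp.single 4 j (t • h)) := by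
  by_contra hcon
  push Not at hcon
  set R : ℝ := (b + 1) / a + 1 with hR
  have hR1 : 1 ≤ R := by
    have : 0 < (b + 1) / a := by positivity
    linarith only [this]
  set ε : ℝ := 1 / R ^ 4 with hε
  have hε0 : 0 < ε := by positivity
  set G : lp E 4 → ℝ := fun y => N y - ε * ‖y‖ ^ 4 with hG
  set D : Set (lp E 4) := {y | {i | y i ≠ 0}.Finite ∧ ‖y‖ ≤ R ∧ G y ≤ b ∧ 1 ≤ ‖y‖} with hD
  have hDR : ∀ y ∈ D, ‖y‖ ≤ R - 1 := by
    intro y hy
    have h1 := (hN y).1
    have h2 : G y ≤ b := hy.2.2.1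
    have h3 : ε * ‖y‖ ^ 4 ≤ 1 := by
      rw [hε, one_div, inv_mul_le_iff₀ (by positivity), mul_one]
      exact pow_le_pow_left₀ (norm_nonneg _) hy.2.1 4
    simp only [hG] at h2
    rw [hR, add_sub_cancel_right, le_div_iff₀ ha]
    linarith only [h1, h3, h2]
  have hx₀ : (lp.single 4 j₀ h₀ : lp E 4) ∈ D := by
    have h1 := norm_single_four j₀ h₀
    rw [hh₀] at h1
    refine ⟨?_, by rw [h1]; exact hR1, ?_, h1.ge⟩
    · simpa using finite_add_single (u := (0 : lp E 4)) (by simp) j₀ h₀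
    · have := (hN (lp.single 4 j₀ h₀)).2
      simp only [hG, h1] at this ⊢
      linarith only [hε0, this]
  have step : ∀ (n : ℕ) (y : D), ∃ y' : D, (∀ i, y.1 i ≠ 0 → y'.1 i = y.1 i) ∧ G y' ≤ G y ∧
      ∀ z ∈ D, (∀ i, y.1 i ≠ 0 → z i = y.1 i) → G z ≤ G y →
        ‖z‖ ^ 4 ≤ ‖y'.1‖ ^ 4 + 1 / ((n : ℝ) + 1) := by
    intro n y
    set A : Set ℝ := {r | ∃ z ∈ D, (∀ i, y.1 i ≠ 0 → z i = y.1 i) ∧ G z ≤ G y ∧ r = ‖z‖ ^ 4}
      with hA
    have hne : A.Nonempty := ⟨_, y.1, y.2, fun _ _ => rfl, le_rfl, rfl⟩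
    have hbd : BddAbove A := ⟨R ^ 4, by
      rintro _ ⟨z, hz, -, -, rfl⟩
      exact pow_le_pow_left₀ (norm_nonneg _) hz.2.1 4⟩
    have hlt : sSup A - 1 / ((n : ℝ) + 1) < sSup A := by
      have : (0 : ℝ) < 1 / ((n : ℝ) + 1) := by positivity
      linarith only [this]
    obtain ⟨_, ⟨y', hy', h1, h2, rfl⟩, h3⟩ := exists_lt_of_lt_csSup hne hlt
    refine ⟨⟨y', hy'⟩, h1, h2, fun z hz h4 h5 => ?_⟩
    have := le_csSup hbd (show ‖z‖ ^ 4 ∈ A from ⟨z, hz, h4, h5, rfl⟩)
    simp only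
    linarith only [h3, this]
  choose next hn1 hn2 hn3 using step
  set x : ℕ → D := fun n => Nat.rec ⟨_, hx₀⟩ (fun n y => next n y) n with hx
  have hxs : ∀ n, x (n + 1) = next n (x n) := fun n => rfl
  have hext : ∀ n m, n ≤ m → ∀ i, (x n).1 i ≠ 0 → (x m).1 i = (x n).1 i := by
    intro n m hnm
    induction m, hnm using Nat.le_induction with
    | base => exact fun _ _ => rfl
    | succ m _ ih =>
      intro i hi
      rw [hxs, hn1 m (x m) i (by rw [ih i hi]; exact hi), ih i hi]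
  have hpy : ∀ n m, n ≤ m → ‖(x m).1‖ ^ 4 = ‖(x n).1‖ ^ 4 + ‖(x m).1 - (x n).1‖ ^ 4 := by
    intro n m hnm
    rw [← norm_add_four, add_sub_cancel]
    intro i
    by_cases hi : (x n).1 i = 0
    · exact Or.inl hi
    · right
      rw [lp.coeFn_sub, Pi.sub_apply, hext n m hnm i hi, sub_self]
  set s : ℕ → ℝ := fun n => ‖(x n).1‖ ^ 4 with hs
  have hmono : Monotone s := fun n m hnm => by
    have := hpy n m hnm
    have h2 : 0 ≤ ‖(x m).1 - (x n).1‖ ^ 4 := by positivity
    simp only [hs]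
    linarith only [this, h2]
  have hbdd : BddAbove (Set.range s) := ⟨R ^ 4, by
    rintro _ ⟨n, rfl⟩
    exact pow_le_pow_left₀ (norm_nonneg _) (x n).2.2.1 4⟩
  have hL := tendsto_atTop_ciSup hmono hbdd
  set L := ⨆ n, s n with hLdef
  have hsL : ∀ n, s n ≤ L := fun n => le_ciSup hbdd n
  have hev : ∀ δ > 0, ∀ᶠ n in atTop, L - s n < δ := by
    intro δ hδ
    filter_upwards [hL.eventually (lt_mem_nhds (show L - δ < L by linarith only [hδ]))] with n hn
    linarith only [hn]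
  have hcau : CauchySeq fun n => (x n).1 := by
    rw [Metric.cauchySeq_iff']
    intro δ hδ
    obtain ⟨n, hn⟩ := (hev (δ ^ 4) (by positivity)).exists
    refine ⟨n, fun m hm => ?_⟩
    rw [dist_eq_norm]
    refine lt_of_pow_lt_pow_left₀ 4 hδ.le ?_
    have h1 := hpy n m hm
    have h2 := hsL m
    simp only [hs] at hn h2
    linarith only [h1, hn, h2]
  obtain ⟨z, hz⟩ := cauchySeq_tendsto_of_complete hcau
  have hz1 : 1 ≤ ‖z‖ := ge_of_tendsto' hz.norm fun n => (x n).2.2.2.2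
  have hz0 : z ≠ 0 := by
    rintro rfl
    simp at hz1
    linarith
  obtain ⟨t, ht0, ht1, ht⟩ := hcon (ε / 2) (by positivity) z hz0
  have ht4 : 0 < t ^ 4 := by positivity
  have ev1 : ∀ᶠ n in atTop, dist (x n).1 z < ε * t ^ 4 / (4 * b) :=
    Metric.tendsto_nhds.1 hz _ (by positivity)
  have ev2 : ∀ᶠ n : ℕ in atTop, 1 / ((n : ℝ) + 1) < t ^ 4 / 2 :=
    tendsto_one_div_add_atTop_nhds_zero_nat.eventually (gt_mem_nhds (by positivity))
  obtain ⟨n, h1, h2, h3⟩ := (ev1.and (ev2.and (hev (t ^ 4 / 2) (by positivity)))).exists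
  obtain ⟨j, hj, h, hh, hlt⟩ := ht (x n).2.1.toFinset
  have hj0 : (x n).1 j = 0 := by simpa using hj
  have hth : ‖t • h‖ = t := by rw [norm_smul, hh, Real.norm_eq_abs, abs_of_pos ht0, mul_one]
  set y : lp E 4 := (x n).1 + lp.single 4 j (t • h) with hy
  have hy4 : ‖y‖ ^ 4 = s n + t ^ 4 := by rw [hy, norm_add_single hj0, hth]
  have hGy : G y ≤ G (x n) := by
    rw [dist_eq_norm, lt_div_iff₀ (by positivity)] at h1
    have e1 : y = (z + lp.single 4 j (t • h)) + ((x n).1 - z) := by rw [hy]; abel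
    have e2 : z = (x n).1 + (z - (x n).1) := by abel
    have i1 := hadd (z + lp.single 4 j (t • h)) ((x n).1 - z)
    have i2 := hadd (x n).1 (z - (x n).1)
    rw [← e1] at i1
    rw [← e2] at i2
    have i3 := (hN ((x n).1 - z)).2
    have i4 := (hN (z - (x n).1)).2
    rw [norm_sub_rev] at i4
    simp only [hG, hy4, hs]
    linarith only [h1, hlt, i1, i2, i3, i4]
  have hyD : y ∈ D := by
    refine ⟨finite_add_single (x n).2.1 j _, ?_, hGy.trans (x n).2.2.2.1, ?_⟩
    · have := norm_add_le (x n).1 (lp.single 4 j (t • h))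
      rw [norm_single_four, hth] at this
      have := hDR _ (x n).2
      linarith
    · refine (pow_le_pow_iff_left₀ zero_le_one (norm_nonneg _) (by norm_num : 4 ≠ 0)).1 ?_
      have : 1 ^ 4 ≤ s n := pow_le_pow_left₀ zero_le_one (x n).2.2.2.2 4
      linarith only [ht4, hy4, this]
  have h4 := hn3 n (x n) y hyD (fun i hi => by
    have hij : i ≠ j := by rintro rfl; exact hi hj0
    rw [hy, lp.coeFn_add, Pi.add_apply, lp.single_apply_ne 4 j (t • h) hij, add_zero]) hGy
  rw [← hxs] at h4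
  have h5 := hsL (n + 1)
  simp only [hs] at h5 h3 hy4
  linarith only [h2, h4, h5, h3, hy4]

omit [∀ j, NormedSpace ℝ (E j)] in
lemma quad_finite {q : lp E 4 → ℝ} (h0 : q 0 = 0)
    (hpar : ∀ u v, q (u + v) + q (u - v) = 2 * q u + 2 * q v) {K : ℝ}
    (hK : ∀ u, q u ≤ K * ‖u‖ ^ 2) {η : ℝ} (hη : 0 < η) :
    {j | ∃ h : E j, ‖h‖ ≤ 1 ∧ η < q (lp.single 4 j h)}.Finite := by
  by_contra hinf
  have key : ∀ M : ℕ, ∃ u : lp E 4, {i | u i ≠ 0}.Finite ∧ ‖u‖ ^ 4 ≤ M ∧ M * η ≤ q u := by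
    intro M
    induction M with
    | zero => exact ⟨0, by simp, by simp, by simp [h0]⟩
    | succ M ih =>
      obtain ⟨u, hu1, hu2, hu3⟩ := ih
      obtain ⟨j, ⟨h, hh, hq⟩, hj⟩ := (Set.Infinite.sdiff hinf hu1).nonempty
      have hj0 : u j = 0 := by simpa using hj
      have hh4 : ‖h‖ ^ 4 ≤ 1 := pow_le_one₀ (norm_nonneg _) hh
      have := hpar u (lp.single 4 j h)
      push_cast
      by_cases hc : q (u - lp.single 4 j h) ≤ q (u + lp.single 4 j h)
      · exact ⟨u + lp.single 4 j h, finite_add_single hu1 j h,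
          by rw [norm_add_single hj0]; linarith, by linarith⟩
      · refine ⟨u + lp.single 4 j (-h), finite_add_single hu1 j _,
          by rw [norm_add_single hj0, norm_neg]; linarith, ?_⟩
        rw [lp.single_neg, ← sub_eq_add_neg]
        linarith
  obtain ⟨M, hM⟩ := exists_nat_gt (K ^ 2 / η ^ 2)
  have hM0 : (0 : ℝ) < M := lt_of_le_of_lt (by positivity) hM
  obtain ⟨u, -, hu2, hu3⟩ := key M
  have h1 := hu3.trans (hK u)
  have h2 : (M * η) ^ 2 ≤ (K * ‖u‖ ^ 2) ^ 2 := pow_le_pow_left₀ (by positivity) h1 2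
  rw [div_lt_iff₀ (by positivity)] at hM
  have h3 : (K * ‖u‖ ^ 2) ^ 2 ≤ K ^ 2 * M := by
    rw [mul_pow, ← pow_mul]
    gcongr
  linarith only [hM, h2, h3, mul_nonneg_of_nonpos_of_nonpos (Mathlib.Tactic.Linarith.sub_nonpos_of_le (sq_nonneg K)) (le_of_lt (Mathlib.Tactic.Linarith.sub_neg_of_lt hM)), mul_nonneg_of_nonpos_of_nonpos (Mathlib.Tactic.Linarith.sub_nonpos_of_le (sq_nonneg η)) (Mathlib.Tactic.Linarith.sub_nonpos_of_le h2), mul_nonneg_of_nonpos_of_nonpos (Mathlib.Tactic.Linarith.sub_nonpos_of_le (sq_nonneg η)) (Mathlib.Tactic.Linarith.sub_nonpos_of_le h3), mul_pos_of_neg_of_neg (Mathlib.Tactic.Linarith.sub_neg_of_lt hM) (Mathlib.Tactic.Linarith.sub_neg_of_lt hM)]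

lemma bilinear_far (B : ContinuousMultilinearMap ℝ (fun _ : Fin 2 => lp E 4) ℝ) {η : ℝ}
    (hη : 0 < η) : ∃ S : Finset J, ∀ j ∉ S, ∀ h : E j, ‖h‖ ≤ 1 →
      |B (fun _ => lp.single 4 j h)| ≤ η := by
  set f : lp E 4 → lp E 4 → ℝ := fun u v => B ![u, v] with hf
  have u0 : ∀ x v : lp E 4, Function.update ![0, v] 0 x = ![x, v] := by
    intro x v; ext1 j; fin_cases j <;> simp
  have u1 : ∀ x u : lp E 4, Function.update ![u, 0] 1 x = ![u, x] := by
    intro x u; ext1 j; fin_cases j <;> simp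
  have a0 : ∀ x y v, f (x + y) v = f x v + f y v := fun x y v => by
    simp only [hf]; rw [← u0, B.map_update_add, u0, u0]
  have a1 : ∀ x y u, f u (x + y) = f u x + f u y := fun x y u => by
    simp only [hf]; rw [← u1, B.map_update_add, u1, u1]
  have s0 : ∀ x y v, f (x - y) v = f x v - f y v := fun x y v => by
    simp only [hf]; rw [← u0, B.map_update_sub, u0, u0]
  have s1 : ∀ x y u, f u (x - y) = f u x - f u y := fun x y u => by
    simp only [hf]; rw [← u1, B.map_update_sub, u1, u1]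
  have e : ∀ y, B (fun _ => y) = f y y := fun y => by
    simp only [hf]
    congr 1
    ext1 j; fin_cases j <;> rfl
  have hz : B (fun _ => 0) = 0 := B.map_coord_zero 0 rfl
  have hpar : ∀ u v, B (fun _ => u + v) + B (fun _ => u - v) =
      2 * B (fun _ => u) + 2 * B (fun _ => v) := fun u v => by
    simp only [e, a0, a1, s0, s1]; ring
  have hb : ∀ u, |B (fun _ => u)| ≤ ‖B‖ * ‖u‖ ^ 2 := fun u => by
    simpa using B.le_opNorm (fun _ => u)
  have f1 := quad_finite (q := fun u => B (fun _ => u)) hz hpar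
    (fun u => (abs_le.1 (hb u)).2) hη
  have f2 := quad_finite (q := fun u => - B (fun _ => u)) (K := ‖B‖) (by simp [hz])
    (fun u v => by linarith only [hpar, hpar u v]) (fun u => by linarith [(abs_le.1 (hb u)).1]) hη
  refine ⟨(f1.union f2).toFinset, fun j hj h hh => ?_⟩
  simp only [Set.Finite.mem_toFinset, Set.mem_union, Set.mem_ofPred_eq, not_or, not_exists,
    not_and, not_lt] at hj
  exact abs_le.2 ⟨by linarith [hj.2 h hh], hj.1 h hh⟩

end Pool.Agent.Work.MP_2b187c_an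
end

-- merged part: Pool.Agent.Work.MP_2b187c_an.Taylor
section
/-!
The fourth order Taylor term of a five times differentiable equivalent norm on a sum with
exponent four, restricted to far summands.
-/

set_option autoImplicit false

open Filter Topology
open scoped ENNReal

namespace Pool.Agent.Work.MP_2b187c_an

lemma diag_smul {X : Type} [NormedAddCommGroup X] [NormedSpace ℝ X] {n : ℕ}
    (A : ContinuousMultilinearMap ℝ (fun _ : Fin n => X) ℝ) (r : ℝ) (y : X) :
    A (fun _ => r • y) = r ^ n * A (fun _ => y) := by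
  have := A.map_smul_univ (fun _ => r) (fun _ => y)
  simpa using this

lemma taylor_even {X : Type} [NormedAddCommGroup X] [NormedSpace ℝ X] {N : X → ℝ}
    (hN : ContDiffOn ℝ (5 : ℕ) N ({0}ᶜ : Set X)) {x : X} (hx : x ≠ 0) :
    ∃ (B : ContinuousMultilinearMap ℝ (fun _ : Fin 2 => X) ℝ)
      (A : ContinuousMultilinearMap ℝ (fun _ : Fin 4 => X) ℝ) (K δ : ℝ), 0 < K ∧ 0 < δ ∧
      ∀ y : X, ‖y‖ < δ → |(N (x + y) + N (x - y)) / 2 - N x - B (fun _ => y) - A (fun _ => y)|
        ≤ K * ‖y‖ ^ 5 := by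
  have hat : ∀ z : X, z ≠ 0 → ContDiffAt ℝ (5 : ℕ) N z := fun z hz =>
    hN.contDiffAt (isOpen_compl_singleton.mem_nhds hz)
  have hc : ContinuousAt (iteratedFDeriv ℝ 5 N) x :=
    (hat x hx).continuousAt_iteratedFDeriv (by simp)
  obtain ⟨δ, hδ, hb⟩ := Metric.continuousAt_iff.1 hc 1 one_pos
  set K : ℝ := ‖iteratedFDeriv ℝ 5 N x‖ + 1 with hK
  have hK0 : 0 < K := by positivity
  have hx0 : 0 < ‖x‖ := norm_pos_iff.2 hx
  have key : ∀ y : X, ‖y‖ < min δ ‖x‖ →
      |N (x + y) - ∑ k ∈ Finset.range 5, ((k.factorial : ℝ))⁻¹ •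
        iteratedFDeriv ℝ k N x (fun _ => y)| ≤ K * ‖y‖ ^ 5 := by
    intro y hy
    have hty : ∀ t ∈ Set.Icc (0 : ℝ) 1, ‖t • y‖ < min δ ‖x‖ := by
      intro t ht
      rw [norm_smul, Real.norm_eq_abs, abs_of_nonneg ht.1]
      have := mul_le_of_le_one_left (norm_nonneg y) ht.2
      linarith
    have hne : ∀ t ∈ Set.Icc (0 : ℝ) 1, x + t • y ≠ 0 := by
      intro t ht h0
      have h1 := (lt_min_iff.1 (hty t ht)).2
      rw [eq_neg_of_add_eq_zero_right h0, norm_neg] at h1
      exact lt_irrefl _ h1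
    have h := map_add_eq_sum_add_integral_iteratedFDeriv (f := N) (x := x) (y := y) (n := 4)
      (fun t ht => hat _ (hne t ht))
    rw [h, add_sub_cancel_left]
    have hI : ‖∫ t in (0 : ℝ)..1, (1 - t) ^ 4 • iteratedFDeriv ℝ (4 + 1) N (x + t • y)
        (fun _ => y)‖ ≤ K * ‖y‖ ^ 5 * |1 - 0| := by
      refine intervalIntegral.norm_integral_le_of_norm_le_const fun t ht => ?_
      rw [Set.uIoc_of_le zero_le_one] at ht
      have ht' : t ∈ Set.Icc (0 : ℝ) 1 := ⟨ht.1.le, ht.2⟩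
      have h1 : dist (x + t • y) x < δ := by
        rw [dist_eq_norm, add_sub_cancel_left]
        exact (lt_min_iff.1 (hty t ht')).1
      have h2 := hb h1
      rw [dist_eq_norm] at h2
      have h3 : ‖iteratedFDeriv ℝ 5 N (x + t • y)‖ ≤ K := by
        have := norm_sub_norm_le (iteratedFDeriv ℝ 5 N (x + t • y)) (iteratedFDeriv ℝ 5 N x)
        linarith only [h2, this]
      have h4 := (iteratedFDeriv ℝ 5 N (x + t • y)).le_opNorm (fun _ => y)
      simp only [Finset.prod_const, Finset.card_univ, Fintype.card_fin] at h4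
      have h5 : ‖(1 - t) ^ 4‖ ≤ 1 := by
        rw [norm_pow, Real.norm_eq_abs, abs_of_nonneg (by linarith only [ht, ht.2])]
        exact pow_le_one₀ (by linarith only [ht, ht.2]) (by linarith only [ht, ht.1])
      rw [norm_smul]
      calc _ ≤ 1 * (K * ‖y‖ ^ 5) := by
            refine mul_le_mul h5 (h4.trans ?_) (norm_nonneg _) zero_le_one
            gcongr
        _ = _ := one_mul _
    rw [← Real.norm_eq_abs, norm_smul]
    have h6 : ‖((Nat.factorial 4 : ℕ) : ℝ)⁻¹‖ ≤ 1 := by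
      rw [norm_inv]
      norm_num [Nat.factorial]
    calc _ ≤ 1 * (K * ‖y‖ ^ 5 * |1 - 0|) := mul_le_mul h6 hI (norm_nonneg _) zero_le_one
      _ = _ := by simp
  refine ⟨(1 / 2 : ℝ) • iteratedFDeriv ℝ 2 N x, (1 / 24 : ℝ) • iteratedFDeriv ℝ 4 N x, K,
    min δ ‖x‖, hK0, lt_min hδ hx0, fun y hy => ?_⟩
  have h1 := key y hy
  have h2 := key (-y) (by rwa [norm_neg])
  have e : ∀ k, iteratedFDeriv ℝ k N x (fun _ => -y) =
      (-1) ^ k * iteratedFDeriv ℝ k N x (fun _ => y) := fun k => by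
    rw [← diag_smul, neg_one_smul]
  simp only [e, norm_neg, ← sub_eq_add_neg] at h2
  simp only [Finset.sum_range_succ, Finset.range_zero, Finset.sum_empty, Nat.factorial,
    iteratedFDeriv_zero_apply, smul_eq_mul] at h1 h2
  simp only [smul_apply, smul_eq_mul]
  norm_num at h1 h2
  rw [abs_le] at h1 h2 ⊢
  constructor <;> linarith only [h1, h2, h1.1, h1.2, h2.1, h2.2]

variable {J : Type} [DecidableEq J] {E : J → Type} [∀ j, NormedAddCommGroup (E j)]
  [∀ j, NormedSpace ℝ (E j)]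

lemma scale_lower {Y : Type} [NormedAddCommGroup Y] [NormedSpace ℝ Y] {T : Y → ℝ}
    (hT : ∀ r y, T (r • y) = r ^ 4 * T y) {c : ℝ} (h : ∀ y, ‖y‖ = 1 → c ≤ T y) (y : Y) :
    c * ‖y‖ ^ 4 ≤ T y := by
  by_cases hy : y = 0
  · have h1 : T 0 = 0 := by simpa using hT 0 0
    simp [hy, h1]
  · have h0 : 0 < ‖y‖ := norm_pos_iff.2 hy
    have h1 := h (‖y‖⁻¹ • y) (by rw [norm_smul, norm_inv, norm_norm, inv_mul_cancel₀ h0.ne'])
    rw [hT, inv_pow, le_inv_mul_iff₀ (by positivity)] at h1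
    linarith

lemma scale_cross {Y : Type} [NormedAddCommGroup Y] [NormedSpace ℝ Y] {T : Y → ℝ}
    (hT : ∀ r y, T (r • y) = r ^ 4 * T y) {η : ℝ} (hη : 0 ≤ η)
    (h : ∀ u w, ‖u‖ ≤ 1 → ‖w‖ ≤ 1 → T (u + w) ≤ 8 * (T u + T w) + η) (u w : Y) :
    T (u + w) ≤ 8 * (T u + T w) + η * (‖u‖ ^ 4 + ‖w‖ ^ 4) := by
  have hT0 : T 0 = 0 := by
    have := hT 0 0
    simpa using this
  set M := max ‖u‖ ‖w‖ with hM
  have hM4 : M ^ 4 ≤ ‖u‖ ^ 4 + ‖w‖ ^ 4 := by
    rcases max_choice ‖u‖ ‖w‖ with h1 | h1 <;> rw [hM, h1]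
    · exact le_add_of_nonneg_right (by positivity)
    · exact le_add_of_nonneg_left (by positivity)
  rcases (le_max_of_le_left (norm_nonneg u) : 0 ≤ M).eq_or_lt with h0 | h0
  · have hu : u = 0 := norm_le_zero_iff.1 (h0 ▸ le_max_left _ _)
    have hw : w = 0 := norm_le_zero_iff.1 (h0 ▸ le_max_right _ _)
    simp [hu, hw, hT0]
  · have hn : ∀ y : Y, ‖y‖ ≤ M → ‖M⁻¹ • y‖ ≤ 1 := fun y hy => by
      rw [norm_smul, norm_inv, Real.norm_eq_abs, abs_of_pos h0, inv_mul_le_iff₀ h0, mul_one]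
      exact hy
    have h1 := h _ _ (hn u (le_max_left _ _)) (hn w (le_max_right _ _))
    rw [← smul_add, hT, hT, hT, inv_pow] at h1
    have h2 : 0 < M ^ 4 := by positivity
    have h3 := mul_le_mul_of_nonneg_left h1 h2.le
    have e1 : ∀ r : ℝ, M ^ 4 * ((M ^ 4)⁻¹ * r) = r := fun r => mul_inv_cancel_left₀ h2.ne' r
    have e2 : M ^ 4 * (8 * ((M ^ 4)⁻¹ * T u + (M ^ 4)⁻¹ * T w) + η) =
        8 * (T u + T w) + η * M ^ 4 := by linear_combination 8 * e1 (T u) + 8 * e1 (T w)
    rw [e1, e2] at h3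
    have := mul_le_mul_of_nonneg_left hM4 hη
    linarith only [h3, this]

theorem far_quartic [∀ j, CompleteSpace (E j)] {N : lp E 4 → ℝ}
    (hadd : ∀ x y, N (x + y) ≤ N x + N y) (hsm : ∀ (r : ℝ) x, N (r • x) = |r| * N x)
    {a b : ℝ} (ha : 0 < a) (hb : 0 < b) (hN : ∀ x, a * ‖x‖ ≤ N x ∧ N x ≤ b * ‖x‖)
    (hd : ContDiffOn ℝ (5 : ℕ) N ({0}ᶜ : Set (lp E 4))) {j₀ : J} {h₀ : E j₀} (hh₀ : ‖h₀‖ = 1) :
    ∃ (A : ContinuousMultilinearMap ℝ (fun _ : Fin 4 => lp E 4) ℝ) (c : ℝ), 0 < c ∧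
      ∀ η > 0, ∃ S : Finset J, ∀ j ∉ S,
        (∀ h : E j, c * ‖h‖ ^ 4 ≤ A (fun _ => lp.single 4 j h)) ∧
        (∀ u w : E j, A (fun _ => lp.single 4 j (u + w)) ≤
          8 * (A (fun _ => lp.single 4 j u) + A (fun _ => lp.single 4 j w)) +
            η * (‖u‖ ^ 4 + ‖w‖ ^ 4)) := by
  obtain ⟨ε, hε, x, hx, hw⟩ := walk hadd ha hb hN hh₀
  obtain ⟨B, A, K, δ, hK, hδ, hT⟩ := taylor_even hd hx
  have hsA : ∀ (j : J) (r : ℝ) (h : E j), A (fun _ => lp.single 4 j (r • h)) =
      r ^ 4 * A (fun _ => lp.single 4 j h) := fun j r h => by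
    rw [lp.single_smul, diag_smul]
  have hsB : ∀ (j : J) (r : ℝ) (h : E j), B (fun _ => lp.single 4 j (r • h)) =
      r ^ 2 * B (fun _ => lp.single 4 j h) := fun j r h => by
    rw [lp.single_smul, diag_smul]
  have hmid : ∀ p q : lp E 4, N (x + (1 / 2 : ℝ) • (p + q)) ≤ (N (x + p) + N (x + q)) / 2 := by
    intro p q
    have e : x + (1 / 2 : ℝ) • (p + q) = (1 / 2 : ℝ) • ((x + p) + (x + q)) := by module
    rw [e, hsm, abs_of_pos (by norm_num)]
    linarith only [hadd, hadd (x + p) (x + q)]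
  refine ⟨A, ε / 2, by positivity, fun η hη => ?_⟩
  obtain ⟨t, ht0, ht1, ht2, ht3⟩ : ∃ t : ℝ, 0 < t ∧ t ≤ 1 ∧ t < δ ∧ K * t ≤ ε / 4 := by
    refine ⟨min 1 (min (δ / 2) (ε / 4 / K)), by positivity, min_le_left _ _, ?_, ?_⟩
    · have := (min_le_right 1 _).trans (min_le_left (δ / 2) (ε / 4 / K))
      linarith only [hδ, this]
    · have := (min_le_right 1 _).trans (min_le_right (δ / 2) (ε / 4 / K))
      rwa [le_div_iff₀ hK, mul_comm] at this
  obtain ⟨s, hs0, hs2, hs3⟩ : ∃ s : ℝ, 0 < s ∧ 2 * s < δ ∧ K * s ≤ η / 128 := by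
    refine ⟨min (δ / 4) (η / 128 / K), by positivity, ?_, ?_⟩
    · have := min_le_left (δ / 4) (η / 128 / K)
      linarith only [ht0, ht2, this]
    · have := min_le_right (δ / 4) (η / 128 / K)
      rwa [le_div_iff₀ hK, mul_comm] at this
  obtain ⟨S₁, hS₁⟩ := hw t ht0 ht1
  obtain ⟨S₂, hS₂⟩ := bilinear_far B (η := ε * t ^ 2 / 4) (by positivity)
  obtain ⟨S₃, hS₃⟩ := bilinear_far B (η := η * s ^ 2 / 16) (by positivity)
  refine ⟨S₁ ∪ (S₂ ∪ S₃), fun j hj => ?_⟩
  simp only [Finset.mem_union, not_or] at hj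
  obtain ⟨hj1, hj2, hj3⟩ := hj
  refine ⟨scale_lower (hsA j) fun h hh => ?_,
    scale_cross (T := fun h : E j => A (fun _ => lp.single 4 j h)) (hsA j) hη.le
      fun u w hu hw' => ?_⟩
  · have h1 := hS₁ j hj1 h hh
    have h2 := hS₁ j hj1 (-h) (by rwa [norm_neg])
    rw [smul_neg, lp.single_neg, ← sub_eq_add_neg] at h2
    have hn : ‖(lp.single 4 j (t • h) : lp E 4)‖ = t := by
      rw [norm_single_four, norm_smul, hh, Real.norm_eq_abs, abs_of_pos ht0, mul_one]
    have h3 := (abs_le.1 (hT (lp.single 4 j (t • h)) (by rwa [hn]))).2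
    rw [hn, hsA, hsB] at h3
    have h4 := (abs_le.1 (hS₂ j hj2 h hh.le)).2
    have h5 : t ^ 2 * B (fun _ => lp.single 4 j h) ≤ t ^ 2 * (ε * t ^ 2 / 4) := by gcongr
    have h6 : K * t * t ^ 4 ≤ ε / 4 * t ^ 4 := by gcongr
    have ht4 : 0 < t ^ 4 := by positivity
    refine le_of_mul_le_mul_left ?_ ht4
    linarith only [h1, h2, h3, h5, h6]
  · have hn : ∀ y : E j, ‖y‖ ≤ 1 → ‖(lp.single 4 j ((2 * s) • y) : lp E 4)‖ ≤ 2 * s := by
      intro y hy
      rw [norm_single_four, norm_smul, Real.norm_eq_abs, abs_of_pos (by positivity)]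
      exact mul_le_of_le_one_right (by positivity) hy
    have hR : ∀ y : E j, ‖y‖ ≤ 1 →
        |(N (x + lp.single 4 j ((2 * s) • y)) + N (x - lp.single 4 j ((2 * s) • y))) / 2 - N x -
          (2 * s) ^ 4 * A (fun _ => lp.single 4 j y)| ≤ η * s ^ 4 / 2 := by
      intro y hy
      have h1 := hT _ ((hn y hy).trans_lt hs2)
      rw [hsA, hsB] at h1
      have h2 : K * ‖(lp.single 4 j ((2 * s) • y) : lp E 4)‖ ^ 5 ≤ K * (2 * s) ^ 5 := by
        gcongr
        exact hn y hy
      have h3 := abs_le.1 (hS₃ j hj3 y hy)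
      have h4 : (2 * s) ^ 2 * B (fun _ => lp.single 4 j y) ≤ (2 * s) ^ 2 * (η * s ^ 2 / 16) := by
        gcongr
        exact h3.2
      have h5 : (2 * s) ^ 2 * -(η * s ^ 2 / 16) ≤ (2 * s) ^ 2 * B (fun _ => lp.single 4 j y) := by
        gcongr
        exact h3.1
      have h6 : K * s * s ^ 4 ≤ η / 128 * s ^ 4 := by gcongr
      rw [abs_le] at h1 ⊢
      constructor <;> linarith only [h1, h2, h5, h6, h4, h1.1, h1.2]
    have hm : ‖(1 / 2 : ℝ) • (u + w)‖ ≤ 1 := by
      rw [norm_smul, Real.norm_eq_abs, abs_of_pos (by norm_num)]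
      linarith only [hu, hw', norm_add_le u w]
    have h1 := (abs_le.1 (hR u hu)).2
    have h2 := (abs_le.1 (hR w hw')).2
    have h3 := (abs_le.1 (hR _ hm)).1
    have e : (lp.single 4 j ((2 * s) • (1 / 2 : ℝ) • (u + w)) : lp E 4) =
        (1 / 2 : ℝ) • (lp.single 4 j ((2 * s) • u) + lp.single 4 j ((2 * s) • w)) := by
      rw [← lp.single_add, ← lp.single_smul, ← smul_add, smul_comm]
    rw [e, hsA] at h3
    have h4 := hmid (lp.single 4 j ((2 * s) • u)) (lp.single 4 j ((2 * s) • w))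
    have h5 := hmid (-lp.single 4 j ((2 * s) • u)) (-lp.single 4 j ((2 * s) • w))
    rw [← neg_add, smul_neg, ← sub_eq_add_neg, ← sub_eq_add_neg, ← sub_eq_add_neg] at h5
    have hs4 : 0 < s ^ 4 := by positivity
    refine le_of_mul_le_mul_left ?_ hs4
    linarith only [h1, h2, h3, h4, h5]

end Pool.Agent.Work.MP_2b187c_an
end

-- merged part: Pool.Agent.Work.MP_2b187c_an.Space
section
/-!
The space: the sum with exponent four of the blocks given by the rank kernels.
-/

set_option autoImplicit false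

open Finset TopologicalSpace
open scoped ENNReal

namespace Pool.Agent.Work.MP_2b187c_an

section general

variable {J : Type} {E : J → Type} [∀ j, NormedAddCommGroup (E j)] [∀ j, NormedSpace ℝ (E j)]

lemma separable_lp [Countable J] [∀ j, SeparableSpace (E j)] : SeparableSpace (lp E 4) := by
  classical
  rw [← isSeparable_univ_iff]
  have h1 : IsSeparable (⋃ j, Set.range (lp.single (E := E) 4 j)) :=
    IsSeparable.iUnion fun j => isSeparable_range (lp.isometry_single j).continuous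
  refine (h1.span (R := ℝ)).closure.mono fun x _ => ?_
  refine mem_closure_of_tendsto (lp.hasSum_single (by norm_num) x) (.of_forall fun s => ?_)
  exact Submodule.sum_mem _ fun j _ => Submodule.subset_span (Set.mem_iUnion.2 ⟨j, _, rfl⟩)

lemma exists_sum_form (A : ∀ j, MultilinearMap ℝ (fun _ : Fin 4 => E j) ℝ) {C : ℝ}
    (hA : ∀ j ξ, ‖A j ξ‖ ≤ C * ∑ i, ‖ξ i‖ ^ 4) :
    ∃ P : ContinuousMultilinearMap ℝ (fun _ : Fin 4 => lp E 4) ℝ,
      ∀ x, HasSum (fun j => A j fun i => x i j) (P x) := by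
  have hs : ∀ x : Fin 4 → lp E 4,
      HasSum (fun j => C * ∑ i, ‖x i j‖ ^ 4) (C * ∑ i, ‖x i‖ ^ 4) := fun x =>
    (hasSum_sum fun i _ => hasSum_four (x i)).mul_left C
  have hsum : ∀ x : Fin 4 → lp E 4, Summable fun j => A j fun i => x i j := fun x =>
    Summable.of_norm_bounded (hs x).summable fun j => hA j _
  have hup : ∀ [DecidableEq (Fin 4)] (x : Fin 4 → lp E 4) (k : Fin 4) (a : lp E 4) (j : J),
      (fun i => Function.update x k a i j) = Function.update (fun i => x i j) k (a j) := by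
    intro _ x k a j
    ext i
    by_cases h : i = k
    · subst h; simp
    · simp [h]
  let P : MultilinearMap ℝ (fun _ : Fin 4 => lp E 4) ℝ :=
    { toFun := fun x => ∑' j, A j fun i => x i j
      map_update_add' := fun x k a c => by
        rw [← (hsum _).tsum_add (hsum _)]
        simp only [hup, lp.coeFn_add, Pi.add_apply, MultilinearMap.map_update_add]
      map_update_smul' := fun x k r a => by
        rw [← (hsum _).tsum_const_smul]
        simp only [hup, lp.coeFn_smul, Pi.smul_apply, MultilinearMap.map_update_smul] }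
  have hP : ∀ x, ‖P x‖ ≤ C * ∑ i, ‖x i‖ ^ 4 := fun x =>
    tsum_of_norm_bounded (hs x) fun j => hA j _
  have hb : ∀ x, ‖P x‖ ≤ (C * 4) * ∏ i, ‖x i‖ := by
    intro x
    by_cases h0 : ∃ i, x i = 0
    · obtain ⟨i, hi⟩ := h0
      rw [P.map_coord_zero i hi, prod_eq_zero (mem_univ i) (by simp [hi])]
      simp
    · push Not at h0
      have e : x = fun i => ‖x i‖ • (‖x i‖⁻¹ • x i) := by
        ext1 i
        rw [smul_inv_smul₀ (norm_ne_zero_iff.2 (h0 i))]
      have h1 := hP fun i => ‖x i‖⁻¹ • x i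
      have h2 : ∀ i, ‖‖x i‖⁻¹ • x i‖ = 1 := fun i => by
        rw [norm_smul, norm_inv, norm_norm, inv_mul_cancel₀ (norm_ne_zero_iff.2 (h0 i))]
      simp only [h2, one_pow, sum_const, card_univ, Fintype.card_fin, nsmul_eq_mul, mul_one,
        Nat.cast_ofNat] at h1
      have h3 : P x = (∏ i, ‖x i‖) • P fun i => ‖x i‖⁻¹ • x i := by
        rw [← P.map_smul_univ, ← e]
      have h4 : 0 ≤ ∏ i, ‖x i‖ := prod_nonneg fun i _ => norm_nonneg _
      rw [h3, norm_smul, Real.norm_eq_abs, abs_of_nonneg h4, mul_comm]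
      gcongr
  exact ⟨P.mkContinuous _ hb, fun x => (hsum x).hasSum⟩

end general

section block

variable {I : Type} [Fintype I]

/-- The four-linear form of a kernel. -/
noncomputable def form (b : I → I → ℝ) : MultilinearMap ℝ (fun _ : Fin 4 => I → ℝ) ℝ :=
  ∑ x, ∑ y, b x y • (MultilinearMap.mkPiAlgebra ℝ (Fin 4) ℝ).compLinearMap
    fun i => LinearMap.proj (![x, x, y, y] i)

lemma form_apply (b : I → I → ℝ) (ξ : Fin 4 → I → ℝ) :
    form b ξ = bil b (fun x => ξ 0 x * ξ 1 x) (fun x => ξ 2 x * ξ 3 x) := by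
  simp only [form, bil, _root_.sum_apply, smul_apply,
    MultilinearMap.compLinearMap_apply, MultilinearMap.mkPiAlgebra_apply, Fin.prod_univ_four,
    smul_eq_mul]
  refine sum_congr rfl fun x _ => sum_congr rfl fun y _ => ?_
  simp
  ring

lemma form_diag (b : I → I → ℝ) (ξ : I → ℝ) : form b (fun _ => ξ) = quart b ξ := by
  simp only [form_apply, quart, sq]

lemma form_bound {b : I → I → ℝ} (h : GoodKernel b) (ξ : Fin 4 → I → ℝ) :
    ‖form b ξ‖ ≤ 18 * ∑ i, quart b (ξ i) := by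
  have h1 : ‖form b ξ‖ ≤ bil b (fun x => ξ 0 x ^ 2) (fun x => ξ 2 x ^ 2) +
      bil b (fun x => ξ 0 x ^ 2) (fun x => ξ 3 x ^ 2) +
      bil b (fun x => ξ 1 x ^ 2) (fun x => ξ 2 x ^ 2) +
      bil b (fun x => ξ 1 x ^ 2) (fun x => ξ 3 x ^ 2) := by
    simp only [form_apply, bil, ← sum_add_distrib]
    refine (norm_sum_le _ _).trans (sum_le_sum fun x _ => (norm_sum_le _ _).trans
      (sum_le_sum fun y _ => ?_))
    have hb := h.nonneg x y
    have e1 : |ξ 0 x * ξ 1 x| ≤ ξ 0 x ^ 2 + ξ 1 x ^ 2 :=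
      abs_le.2 ⟨by linarith only [sq_nonneg (ξ 0 x + ξ 1 x), sq_nonneg (ξ (0 : Fin (4 : ℕ)) x + ξ (1 : Fin (4 : ℕ)) x), sq_nonneg (ξ (0 : Fin (4 : ℕ)) x), sq_nonneg (ξ (1 : Fin (4 : ℕ)) x)], by nlinarith [sq_nonneg (ξ 0 x - ξ 1 x)]⟩
    have e2 : |ξ 2 y * ξ 3 y| ≤ ξ 2 y ^ 2 + ξ 3 y ^ 2 :=
      abs_le.2 ⟨by linarith only [sq_nonneg (ξ 2 y + ξ 3 y), sq_nonneg (ξ (2 : Fin (4 : ℕ)) y + ξ (3 : Fin (4 : ℕ)) y), sq_nonneg (ξ (2 : Fin (4 : ℕ)) y), sq_nonneg (ξ (3 : Fin (4 : ℕ)) y)], by linarith only [sq_nonneg (ξ 2 y - ξ 3 y), sq_nonneg (ξ (2 : Fin (4 : ℕ)) y - ξ (3 : Fin (4 : ℕ)) y), sq_nonneg (ξ (2 : Fin (4 : ℕ)) y), sq_nonneg (ξ (3 : Fin (4 : ℕ)) y)]⟩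
    rw [Real.norm_eq_abs, abs_mul, abs_mul, abs_of_nonneg hb]
    calc _ ≤ b x y * (ξ 0 x ^ 2 + ξ 1 x ^ 2) * (ξ 2 y ^ 2 + ξ 3 y ^ 2) := by gcongr
      _ = _ := by ring
  have h2 : ∀ i k, bil b (fun x => ξ i x ^ 2) (fun x => ξ k x ^ 2) ≤
      9 * (quart b (ξ i) + quart b (ξ k)) := fun i k =>
    h.cs _ _ (fun _ => sq_nonneg _) (fun _ => sq_nonneg _)
  rw [Fin.sum_univ_four]
  linarith [h2 0 2, h2 0 3, h2 1 2, h2 1 3]

end block

/-- A prime above a given number. -/
noncomputable def prm (k : ℕ) : ℕ := (Nat.exists_infinite_primes (k + 1)).choose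

lemma le_prm (k : ℕ) : k + 1 ≤ prm k := (Nat.exists_infinite_primes (k + 1)).choose_spec.1

instance prm_fact (k : ℕ) : Fact (prm k).Prime :=
  ⟨(Nat.exists_infinite_primes (k + 1)).choose_spec.2⟩

/-- The blocks. -/
abbrev Block (j : ℕ × ℕ) : Type :=
  Blk (kb : Mat j.1 (ZMod (prm j.2)) → Mat j.1 (ZMod (prm j.2)) → ℝ) goodKernel_kb

/-- The space. -/
abbrev Space : Type := lp Block 4

instance : SeparableSpace Space := separable_lp

theorem exists_separating : ∃ P : ContinuousMultilinearMap ℝ (fun _ : Fin 4 => Space) ℝ,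
    ∀ x, 1 / 324 * ‖x‖ ^ 4 ≤ P (fun _ => x) := by
  obtain ⟨P, hP⟩ := exists_sum_form (E := Block) (fun j => form kb) (C := 18) fun j ξ =>
    (form_bound goodKernel_kb ξ).trans (by
      gcongr with i
      exact Blk.quart_le (ξ i))
  refine ⟨P, fun x => hasSum_le (fun j => ?_) ((hasSum_four x).mul_left (1 / 324))
    (hP fun _ => x)⟩
  have h1 := Blk.le_quart (x j)
  have h2 := form_diag kb (x j)
  change _ ≤ form kb fun _ => x j
  linarith only [h1, h2]

theorem no_smooth_norm {N : Space → ℝ}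
    (hadd : ∀ x y, N (x + y) ≤ N x + N y) (hsm : ∀ (r : ℝ) x, N (r • x) = |r| * N x)
    {a b : ℝ} (ha : 0 < a) (hb : 0 < b) (hN : ∀ x, a * ‖x‖ ≤ N x ∧ N x ≤ b * ‖x‖) :
    ¬ ContDiffOn ℝ (5 : ℕ) N ({0}ᶜ : Set Space) := by
  intro hd
  obtain ⟨h₀, hh₀⟩ : ∃ h₀ : Block (0, 0), ‖h₀‖ = 1 := by
    have : Nontrivial (Block (0, 0)) := Function.nontrivial
    exact exists_norm_eq _ zero_le_one
  obtain ⟨A, c, hc, hA⟩ := far_quartic hadd hsm ha hb hN hd hh₀
  set C : ℝ := ‖A‖ * 324 with hC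
  have hC0 : 0 ≤ C := by positivity
  obtain ⟨m, hm⟩ := exists_pow_lt_of_lt_one (show 0 < c / 3 / (C + 1) by positivity)
    (show (7 / 8 : ℝ) < 1 by norm_num)
  rw [lt_div_iff₀ (by positivity)] at hm
  obtain ⟨S, hS⟩ := hA (c / 6 / 7 ^ m / 324) (by positivity)
  obtain ⟨k, hk1, hk2, hk3⟩ : ∃ k : ℕ, (m, k) ∉ S ∧ 7 ^ m * (4 * C) / (c / 3) ≤ k ∧ 0 < k := by
    obtain ⟨k₀, hk₀⟩ := exists_nat_ge (7 ^ m * (4 * C) / (c / 3))
    refine ⟨S.sup Prod.snd + k₀ + 1, fun h => ?_, hk₀.trans ?_, by omega⟩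
    · have : S.sup Prod.snd + k₀ + 1 ≤ S.sup Prod.snd := Finset.le_sup (f := Prod.snd) h
      omega
    · exact_mod_cast (by omega)
  obtain ⟨h1, h2⟩ := hS _ hk1
  have hq : IsQuartic fun u : Block (m, k) => A fun _ => lp.single 4 (m, k) u :=
    (isQuartic_multilinear A.toMultilinearMap).comp (lp.singleAddMonoidHom 4 (m, k))
  have key := finite_bound (m := m) (F := ZMod (prm k)) hq hc.le hC0
    (show 0 ≤ c / 6 / 7 ^ m by positivity) (fun u => le_trans ?_ (h1 u)) (fun u => ?_)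
    (fun u w => (h2 u w).trans ?_)
  · have hcard : (k : ℝ) ≤ Fintype.card (ZMod (prm k))ˣ := by
      rw [ZMod.card_units]
      have := le_prm k
      exact_mod_cast (by omega)
    have hk0 : (0 : ℝ) < k := by exact_mod_cast hk3
    have e1 : 7 ^ m * (4 * C / (Fintype.card (ZMod (prm k))ˣ : ℝ)) ≤ c / 3 := by
      rw [div_le_iff₀ (by positivity)] at hk2
      rw [← mul_div_assoc, div_le_iff₀ (by linarith only [hcard, hk0])]
      linarith only [hk2, hc, hcard, mul_nonneg_of_nonpos_of_nonpos (le_of_lt (Mathlib.Tactic.Linarith.sub_neg_of_lt hc)) (Mathlib.Tactic.Linarith.sub_nonpos_of_le hcard)]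
    have e2 : (7 : ℝ) ^ m * (2 * (c / 6 / 7 ^ m)) = c / 3 := by field_simp; norm_num
    have e3 : (0 : ℝ) < (7 / 8) ^ m := by positivity
    rw [mul_add] at key hm
    linarith only [hm, key, e1, e2, e3]
  · gcongr
    exact Blk.quart_le (h := goodKernel_kb) u
  · have h3 := A.le_opNorm fun _ => lp.single 4 (m, k) u
    simp only [prod_const, card_univ, Fintype.card_fin] at h3
    rw [norm_single_four (E := Block) (m, k) u] at h3
    have h4 := Blk.le_quart (h := goodKernel_kb) u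
    calc _ ≤ _ := le_abs_self _
      _ ≤ _ := h3
      _ ≤ ‖A‖ * (324 * quart kb u) := by gcongr
      _ = _ := by rw [hC]; ring
  · have h4 := Blk.le_quart (h := goodKernel_kb) u
    have h5 := Blk.le_quart (h := goodKernel_kb) w
    have : 0 < c / 6 / 7 ^ m := by positivity
    linarith only [h4, this, h5, mul_nonneg_of_nonpos_of_nonpos (Mathlib.Tactic.Linarith.sub_nonpos_of_le h4) (le_of_lt (Mathlib.Tactic.Linarith.sub_neg_of_lt this)), mul_nonneg_of_nonpos_of_nonpos (Mathlib.Tactic.Linarith.sub_nonpos_of_le h5) (le_of_lt (Mathlib.Tactic.Linarith.sub_neg_of_lt this))]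

end Pool.Agent.Work.MP_2b187c_an
end
end
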