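import Pool.Agent.Work.MP_2b187c_an.Space

-- merged part: Pool.Agent.Work.MP_2b187c_an.Peano
section
/-!
The obstruction only needs a fourth order expansion with a little-o remainder.
-/

set_option autoImplicit false

open Finset TopologicalSpace Filter Topology Asymptotics
open scoped ENNReal

namespace Pool.Agent.Work.MP_2b187c_an

/-- The even part of `N` has a fourth order expansion at `x`. -/
def EvenPeano {X : Type} [NormedAddCommGroup X] [NormedSpace ℝ X] (N : X → ℝ) (x : X) : Prop :=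
  ∃ (B : ContinuousMultilinearMap ℝ (fun _ : Fin 2 => X) ℝ)
    (A : ContinuousMultilinearMap ℝ (fun _ : Fin 4 => X) ℝ), ∀ κ > 0, ∃ δ > 0,
    ∀ y : X, ‖y‖ < δ → |(N (x + y) + N (x - y)) / 2 - N x - B (fun _ => y) - A (fun _ => y)|
      ≤ κ * ‖y‖ ^ 4

section far

variable {J : Type} [DecidableEq J] {E : J → Type} [∀ j, NormedAddCommGroup (E j)]
  [∀ j, NormedSpace ℝ (E j)]

theorem far_quartic_peano [∀ j, CompleteSpace (E j)] {N : lp E 4 → ℝ}
    (hadd : ∀ x y, N (x + y) ≤ N x + N y) (hsm : ∀ (r : ℝ) x, N (r • x) = |r| * N x)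
    {a b : ℝ} (ha : 0 < a) (hb : 0 < b) (hN : ∀ x, a * ‖x‖ ≤ N x ∧ N x ≤ b * ‖x‖)
    (hd : ∀ x : lp E 4, x ≠ 0 → EvenPeano N x) {j₀ : J} {h₀ : E j₀} (hh₀ : ‖h₀‖ = 1) :
    ∃ (A : ContinuousMultilinearMap ℝ (fun _ : Fin 4 => lp E 4) ℝ) (c : ℝ), 0 < c ∧
      ∀ η > 0, ∃ S : Finset J, ∀ j ∉ S,
        (∀ h : E j, c * ‖h‖ ^ 4 ≤ A (fun _ => lp.single 4 j h)) ∧
        (∀ u w : E j, A (fun _ => lp.single 4 j (u + w)) ≤
          8 * (A (fun _ => lp.single 4 j u) + A (fun _ => lp.single 4 j w)) +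
            η * (‖u‖ ^ 4 + ‖w‖ ^ 4)) := by
  obtain ⟨ε, hε, x, hx, hw⟩ := walk hadd ha hb hN hh₀
  obtain ⟨B, A, hT⟩ := hd x hx
  have hsA : ∀ (j : J) (r : ℝ) (h : E j), A (fun _ => lp.single 4 j (r • h)) =
      r ^ 4 * A (fun _ => lp.single 4 j h) := fun j r h => by
    rw [lp.single_smul, diag_smul]
  have hsB : ∀ (j : J) (r : ℝ) (h : E j), B (fun _ => lp.single 4 j (r • h)) =
      r ^ 2 * B (fun _ => lp.single 4 j h) := fun j r h => by
    rw [lp.single_smul, diag_smul]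
  have hmid : ∀ p q : lp E 4, N (x + (1 / 2 : ℝ) • (p + q)) ≤ (N (x + p) + N (x + q)) / 2 := by
    clear * - J E x N hsm hadd
    intro p q
    have e : x + (1 / 2 : ℝ) • (p + q) = (1 / 2 : ℝ) • ((x + p) + (x + q)) := by module
    rw [e, hsm, abs_of_pos (by norm_num)]
    linarith [hadd (x + p) (x + q)]
  refine ⟨A, ε / 2, by positivity, fun η hη => ?_⟩
  obtain ⟨δ₁, hδ₁, hT₁⟩ := hT (ε / 4) (by positivity)
  obtain ⟨δ₂, hδ₂, hT₂⟩ := hT (η / 64) (by positivity)
  obtain ⟨t, ht0, ht1, ht2⟩ : ∃ t : ℝ, 0 < t ∧ t ≤ 1 ∧ t < δ₁ := by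
    refine ⟨min 1 (δ₁ / 2), by positivity, min_le_left _ _, ?_⟩
    have := min_le_right 1 (δ₁ / 2)
    linarith
  obtain ⟨s, hs0, hs2⟩ : ∃ s : ℝ, 0 < s ∧ 2 * s < δ₂ := ⟨δ₂ / 4, by positivity, by linarith⟩
  obtain ⟨S₁, hS₁⟩ := hw t ht0 ht1
  obtain ⟨S₂, hS₂⟩ := bilinear_far B (η := ε * t ^ 2 / 4) (by positivity)
  obtain ⟨S₃, hS₃⟩ := bilinear_far B (η := η * s ^ 2 / 16) (by positivity)
  refine ⟨S₁ ∪ (S₂ ∪ S₃), fun j hj => ?_⟩
  simp only [Finset.mem_union, not_or] at hj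
  obtain ⟨hj1, hj2, hj3⟩ := hj
  refine ⟨scale_lower (hsA j) fun h hh => ?_,
    scale_cross (T := fun h : E j => A (fun _ => lp.single 4 j h)) (hsA j) hη.le
      fun u w hu hw' => ?_⟩
  · have h1 := hS₁ j hj1 h hh
    have h2 := hS₁ j hj1 (-h) (by rwa [norm_neg])
    rw [smul_neg, lp.single_neg, ← sub_eq_add_neg] at h2
    have hn : ‖(lp.single 4 j (t • h) : lp E 4)‖ = t := by
      rw [norm_single_four, norm_smul, hh, Real.norm_eq_abs, abs_of_pos ht0, mul_one]
    have h3 := (abs_le.1 (hT₁ (lp.single 4 j (t • h)) (by rwa [hn]))).2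
    rw [hn, hsA, hsB] at h3
    have h4 := (abs_le.1 (hS₂ j hj2 h hh.le)).2
    have h5 : t ^ 2 * B (fun _ => lp.single 4 j h) ≤ t ^ 2 * (ε * t ^ 2 / 4) := by gcongr
    have ht4 : 0 < t ^ 4 := by positivity
    refine le_of_mul_le_mul_left ?_ ht4
    clear * - t ε J E A j h N x B h1 h2 h3 h5
    nlinarith
  · have hn : ∀ y : E j, ‖y‖ ≤ 1 → ‖(lp.single 4 j ((2 * s) • y) : lp E 4)‖ ≤ 2 * s := by
      intro y hy
      rw [norm_single_four, norm_smul, Real.norm_eq_abs, abs_of_pos (by positivity)]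
      exact mul_le_of_le_one_right (by positivity) hy
    have hR : ∀ y : E j, ‖y‖ ≤ 1 →
        |(N (x + lp.single 4 j ((2 * s) • y)) + N (x - lp.single 4 j ((2 * s) • y))) / 2 - N x -
          (2 * s) ^ 4 * A (fun _ => lp.single 4 j y)| ≤ η * s ^ 4 / 2 := by
      clear * - E j N J x s B A η hT₂ δ₂ hn hs2 hη hS₃ hj3 hs0 hsB hsA
      intro y hy
      have h1 := hT₂ _ ((hn y hy).trans_lt hs2)
      rw [hsA, hsB] at h1
      have h2 : η / 64 * ‖(lp.single 4 j ((2 * s) • y) : lp E 4)‖ ^ 4 ≤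
          η / 64 * (2 * s) ^ 4 := by
        gcongr
        exact hn y hy
      have h3 := abs_le.1 (hS₃ j hj3 y hy)
      have h4 : (2 * s) ^ 2 * B (fun _ => lp.single 4 j y) ≤ (2 * s) ^ 2 * (η * s ^ 2 / 16) := by
        gcongr
        exact h3.2
      have h5 : (2 * s) ^ 2 * -(η * s ^ 2 / 16) ≤ (2 * s) ^ 2 * B (fun _ => lp.single 4 j y) := by
        gcongr
        exact h3.1
      rw [abs_le] at h1 ⊢
      constructor <;> nlinarith [h1.1, h1.2]
    have hm : ‖(1 / 2 : ℝ) • (u + w)‖ ≤ 1 := by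
      rw [norm_smul, Real.norm_eq_abs, abs_of_pos (by norm_num)]
      linarith [norm_add_le u w]
    have h1 := (abs_le.1 (hR u hu)).2
    have h2 := (abs_le.1 (hR w hw')).2
    have h3 := (abs_le.1 (hR _ hm)).1
    have e : (lp.single 4 j ((2 * s) • (1 / 2 : ℝ) • (u + w)) : lp E 4) =
        (1 / 2 : ℝ) • (lp.single 4 j ((2 * s) • u) + lp.single 4 j ((2 * s) • w)) := by
      rw [← lp.single_add, ← lp.single_smul, ← smul_add, smul_comm]
    rw [e, hsA] at h3
    have h4 := hmid (lp.single 4 j ((2 * s) • u)) (lp.single 4 j ((2 * s) • w))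
    have h5 := hmid (-lp.single 4 j ((2 * s) • u)) (-lp.single 4 j ((2 * s) • w))
    rw [← neg_add, smul_neg, ← sub_eq_add_neg, ← sub_eq_add_neg, ← sub_eq_add_neg] at h5
    have hs4 : 0 < s ^ 4 := by positivity
    refine le_of_mul_le_mul_left ?_ hs4
    clear * - s J E A j u w η N x h1 h2 h3 h4 h5
    nlinarith

end far

theorem no_peano_norm {N : Space → ℝ}
    (hadd : ∀ x y, N (x + y) ≤ N x + N y) (hsm : ∀ (r : ℝ) x, N (r • x) = |r| * N x)
    {a b : ℝ} (ha : 0 < a) (hb : 0 < b) (hN : ∀ x, a * ‖x‖ ≤ N x ∧ N x ≤ b * ‖x‖) :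
    ¬ ∀ x : Space, x ≠ 0 → EvenPeano N x := by
  intro hd
  obtain ⟨h₀, hh₀⟩ : ∃ h₀ : Block (0, 0), ‖h₀‖ = 1 := by
    have : Nontrivial (Block (0, 0)) := Function.nontrivial
    exact exists_norm_eq _ zero_le_one
  obtain ⟨A, c, hc, hA⟩ := far_quartic_peano hadd hsm ha hb hN hd hh₀
  set C : ℝ := ‖A‖ * 324 with hC
  have hC0 : 0 ≤ C := by positivity
  obtain ⟨m, hm⟩ := exists_pow_lt_of_lt_one (show 0 < c / 3 / (C + 1) by positivity)
    (show (7 / 8 : ℝ) < 1 by norm_num)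
  rw [lt_div_iff₀ (by positivity)] at hm
  obtain ⟨S, hS⟩ := hA (c / 6 / 7 ^ m / 324) (by positivity)
  obtain ⟨k, hk1, hk2, hk3⟩ : ∃ k : ℕ, (m, k) ∉ S ∧ 7 ^ m * (4 * C) / (c / 3) ≤ k ∧ 0 < k := by
    obtain ⟨k₀, hk₀⟩ := exists_nat_ge (7 ^ m * (4 * C) / (c / 3))
    refine ⟨S.sup Prod.snd + k₀ + 1, fun h => ?_, hk₀.trans ?_, by omega⟩
    · have : S.sup Prod.snd + k₀ + 1 ≤ S.sup Prod.snd := Finset.le_sup (f := Prod.snd) h
      omega
    · exact_mod_cast (by omega)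
  obtain ⟨h1, h2⟩ := hS _ hk1
  have hq : IsQuartic fun u : Block (m, k) => A fun _ => lp.single 4 (m, k) u :=
    (isQuartic_multilinear A.toMultilinearMap).comp (lp.singleAddMonoidHom 4 (m, k))
  have key := finite_bound (m := m) (F := ZMod (prm k)) hq hc.le hC0
    (show 0 ≤ c / 6 / 7 ^ m by positivity) (fun u => le_trans ?_ (h1 u)) (fun u => ?_)
    (fun u w => (h2 u w).trans ?_)
  · have hcard : (k : ℝ) ≤ Fintype.card (ZMod (prm k))ˣ := by
      rw [ZMod.card_units]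
      have := le_prm k
      exact_mod_cast (by omega)
    have hk0 : (0 : ℝ) < k := by exact_mod_cast hk3
    have e1 : 7 ^ m * (4 * C / (Fintype.card (ZMod (prm k))ˣ : ℝ)) ≤ c / 3 := by
      clear * - m C k c hcard hk0 A hc hk2
      rw [div_le_iff₀ (by positivity)] at hk2
      rw [← mul_div_assoc, div_le_iff₀ (by linarith)]
      nlinarith
    have e2 : (7 : ℝ) ^ m * (2 * (c / 6 / 7 ^ m)) = c / 3 := by field_simp; norm_num
    have e3 : (0 : ℝ) < (7 / 8) ^ m := by positivity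
    rw [mul_add] at key hm
    clear * - m C c k A hm key e1 e2 e3
    nlinarith
  · gcongr
    exact Blk.quart_le (h := goodKernel_kb) u
  · have h3 := A.le_opNorm fun _ => lp.single 4 (m, k) u
    simp only [prod_const, card_univ, Fintype.card_fin] at h3
    rw [norm_single_four (E := Block) (m, k) u] at h3
    have h4 := Blk.le_quart (h := goodKernel_kb) u
    calc _ ≤ _ := le_abs_self _
      _ ≤ _ := h3
      _ ≤ ‖A‖ * (324 * quart kb u) := by gcongr
      _ = _ := by rw [hC]; ring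
  · have h4 := Blk.le_quart (h := goodKernel_kb) u
    have h5 := Blk.le_quart (h := goodKernel_kb) w
    have : 0 < c / 6 / 7 ^ m := by positivity
    clear * - A m k u w c h4 this h5
    nlinarith

end Pool.Agent.Work.MP_2b187c_an
end

-- merged part: Pool.Agent.Work.MP_2b187c_an.Peano2
section
/-!
Fourth order expansions, symmetrisation, equivalent norms and bump functions.
-/

set_option autoImplicit false

open Finset TopologicalSpace Filter Topology Asymptotics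

namespace Pool.Agent.Work.MP_2b187c_an

variable {X : Type} [NormedAddCommGroup X] [NormedSpace ℝ X]

lemma evenPeano_of_expansion {N : X → ℝ} {x : X} (p : FormalMultilinearSeries ℝ X ℝ)
    (hp : (fun y => N (x + y) - ∑ k ∈ range 5, p k (fun _ => y)) =o[𝓝 0] fun y => ‖y‖ ^ 4) :
    EvenPeano N x := by
  refine ⟨p 2, p 4, fun κ hκ => ?_⟩
  obtain ⟨δ, hδ, h2⟩ := Metric.eventually_nhds_iff.1 (hp.def hκ)
  refine ⟨δ, hδ, fun y hy => ?_⟩
  have h0 := h2 (y := 0) (by simpa)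
  have h1 := h2 (y := y) (by simpa)
  have h3 := h2 (y := -y) (by simpa)
  have e0 : ∀ k, p k (fun _ => (0 : X)) = 0 ^ k * p k (fun _ => y) := fun k => by
    rw [← diag_smul, zero_smul]
  have e1 : ∀ k, p k (fun _ => -y) = (-1) ^ k * p k (fun _ => y) := fun k => by
    rw [← diag_smul, neg_one_smul]
  simp only [e0] at h0
  simp only [e1, norm_neg, ← sub_eq_add_neg] at h3
  simp only [sum_range_succ, range_zero, sum_empty, Real.norm_eq_abs, abs_pow, abs_norm]
    at h0 h1 h3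
  norm_num at h0 h3
  rw [abs_le] at h1 h3 ⊢
  rw [sub_eq_zero] at h0
  constructor <;> linarith [h1.1, h1.2, h3.1, h3.2]

lemma expansion_of_differentiable {N : X → ℝ} {x : X}
    (h3 : ∀ᶠ z in 𝓝 x, ContDiffAt ℝ (3 : ℕ) N z)
    (hd : DifferentiableAt ℝ (iteratedFDeriv ℝ 3 N) x) :
    (fun y => N (x + y) - ∑ k ∈ range 5, (((k.factorial : ℝ))⁻¹ • iteratedFDeriv ℝ k N x)
      (fun _ => y)) =o[𝓝 0] fun y => ‖y‖ ^ 4 := by
  refine IsLittleO.of_bound fun κ hκ => ?_
  have hL := (hasFDerivAt_iff_isLittleO_nhds_zero.1 hd.hasFDerivAt).def hκ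
  have h3' : ∀ᶠ z in 𝓝 (0 : X), ContDiffAt ℝ (3 : ℕ) N (x + z) := by
    have : Tendsto (fun z : X => x + z) (𝓝 0) (𝓝 x) :=
      (continuous_const.add continuous_id).tendsto' 0 x (add_zero x)
    exact this.eventually h3
  obtain ⟨δ, hδ, hb⟩ := Metric.eventually_nhds_iff.1 (hL.and h3')
  refine Metric.eventually_nhds_iff.2 ⟨δ, hδ, fun y hy => ?_⟩
  rw [dist_zero_right] at hy
  have hty : ∀ t ∈ Set.Icc (0 : ℝ) 1, ‖t • y‖ ≤ ‖y‖ := by
    intro t ht
    rw [norm_smul, Real.norm_eq_abs, abs_of_nonneg ht.1]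
    exact mul_le_of_le_one_left (norm_nonneg y) ht.2
  have hb' := fun t (ht : t ∈ Set.Icc (0 : ℝ) 1) =>
    hb (y := t • y) (by rw [dist_zero_right]; exact (hty t ht).trans_lt hy)
  have h := map_add_eq_sum_add_integral_iteratedFDeriv (f := N) (x := x) (y := y) (n := 2)
    (fun t ht => (hb' t ht).2)
  set L := fderiv ℝ (iteratedFDeriv ℝ 3 N) x with hLdef
  set b : ℝ := iteratedFDeriv ℝ 3 N x (fun _ => y) with hbdef
  set c : ℝ := L y (fun _ => y) with hcdef
  have e4 : iteratedFDeriv ℝ 4 N x (fun _ => y) = c := by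
    rw [iteratedFDeriv_succ_apply_left]
    rfl
  set g : ℝ → ℝ := fun t => (1 - t) ^ 2 • iteratedFDeriv ℝ (2 + 1) N (x + t • y) (fun _ => y)
    with hg
  have hgc : ContinuousOn g (Set.uIcc 0 1) := by
    clear * - g X N x y L κ hb'
    rw [Set.uIcc_of_le zero_le_one]
    intro t ht
    refine ContinuousAt.continuousWithinAt ?_
    have h1 : ContinuousAt (iteratedFDeriv ℝ 3 N) (x + t • y) :=
      (hb' t ht).2.continuousAt_iteratedFDeriv (by simp)
    have h2 : ContinuousAt (fun s : ℝ => iteratedFDeriv ℝ 3 N (x + s • y)) t :=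
      ContinuousAt.comp (f := fun s : ℝ => x + s • y) h1 (by fun_prop)
    have h4 : ContinuousAt (fun s : ℝ => iteratedFDeriv ℝ 3 N (x + s • y) (fun _ => y)) t :=
      ((continuous_eval_const (fun _ : Fin 3 => y)).continuousAt).comp h2
    have h5 : ContinuousAt (fun s : ℝ => (1 - s) ^ 2) t := by fun_prop
    exact h5.smul h4
  have hpoly : ∫ t in (0 : ℝ)..1, (1 - t) ^ 2 * (b + t * c) = b / 3 + c / 12 := by
    clear * - b c
    have hF : ∀ t ∈ Set.uIcc (0 : ℝ) 1, HasDerivAt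
        (fun t : ℝ => b * t + (c - 2 * b) * t ^ 2 / 2 + (b - 2 * c) * t ^ 3 / 3 + c * t ^ 4 / 4)
        ((1 - t) ^ 2 * (b + t * c)) t := by
      intro t _
      have h1 := ((((hasDerivAt_id t).const_mul b).add
        (((hasDerivAt_pow 2 t).const_mul (c - 2 * b)).div_const 2)).add
        (((hasDerivAt_pow 3 t).const_mul (b - 2 * c)).div_const 3)).add
        (((hasDerivAt_pow 4 t).const_mul c).div_const 4)
      refine h1.congr_deriv ?_
      norm_num
      ring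
    rw [intervalIntegral.integral_eq_sub_of_hasDerivAt hF
      (Continuous.intervalIntegrable (by fun_prop) _ _)]
    ring
  have hI : ‖∫ t in (0 : ℝ)..1, (g t - (1 - t) ^ 2 * (b + t * c))‖ ≤ κ * ‖y‖ ^ 4 * |1 - 0| := by
    clear * - κ X y g b c N x L hb' hg hbdef hcdef hty hκ
    refine intervalIntegral.norm_integral_le_of_norm_le_const fun t ht => ?_
    rw [Set.uIoc_of_le zero_le_one] at ht
    have ht' : t ∈ Set.Icc (0 : ℝ) 1 := ⟨ht.1.le, ht.2⟩
    have h1 := (hb' t ht').1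
    have h4 := (iteratedFDeriv ℝ 3 N (x + t • y) - iteratedFDeriv ℝ 3 N x - L (t • y)).le_opNorm
      (fun _ => y)
    simp only [prod_const, card_univ, Fintype.card_fin] at h4
    have e : g t - (1 - t) ^ 2 * (b + t * c) = (1 - t) ^ 2 *
        (iteratedFDeriv ℝ 3 N (x + t • y) - iteratedFDeriv ℝ 3 N x - L (t • y)) (fun _ => y) := by
      simp only [hg, hbdef, hcdef, map_smul, sub_apply, smul_apply, smul_eq_mul]
      ring
    have h5 : ‖(1 - t) ^ 2‖ ≤ 1 := by
      rw [norm_pow, Real.norm_eq_abs, abs_of_nonneg (by linarith [ht.2])]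
      exact pow_le_one₀ (by linarith [ht.2]) (by linarith [ht.1])
    rw [e, norm_mul]
    calc _ ≤ 1 * (κ * ‖y‖ * ‖y‖ ^ 3) := by
          refine mul_le_mul h5 (h4.trans ?_) (norm_nonneg _) zero_le_one
          gcongr
          exact h1.trans (mul_le_mul_of_nonneg_left (hty t ht') hκ.le)
      _ = _ := by ring
  rw [intervalIntegral.integral_sub hgc.intervalIntegrable
    (Continuous.intervalIntegrable (by fun_prop) _ _), hpoly] at hI
  rw [h]
  simp only [sum_range_succ, range_zero, sum_empty, smul_apply, smul_eq_mul, e4, Nat.factorial,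
    Real.norm_eq_abs, abs_pow, abs_norm] at hI ⊢
  rw [← hbdef]
  norm_num at hI ⊢
  have hk : 0 ≤ κ * ‖y‖ ^ 4 := by positivity
  rw [abs_le] at hI ⊢
  constructor <;> linarith [hI.1, hI.2]

lemma exists_symm (P : ContinuousMultilinearMap ℝ (fun _ : Fin 4 => X) ℝ) :
    ∃ A : ContinuousMultilinearMap ℝ (fun _ : Fin 4 => X) ℝ,
      (∀ (σ : Equiv.Perm (Fin 4)) (v : Fin 4 → X), A (v ∘ σ) = A v) ∧
      ∀ x, A (fun _ => x) = P (fun _ => x) := by
  refine ⟨(1 / 24 : ℝ) • ∑ τ : Equiv.Perm (Fin 4), P.domDomCongr τ, fun σ v => ?_, fun x => ?_⟩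
  · simp only [smul_apply, _root_.sum_apply, ContinuousMultilinearMap.domDomCongr_apply]
    congr 1
    exact Fintype.sum_equiv (Equiv.mulLeft σ) _ _ fun τ => rfl
  · simp only [smul_apply, _root_.sum_apply, ContinuousMultilinearMap.domDomCongr_apply,
      sum_const, card_univ, Fintype.card_perm, Fintype.card_fin, nsmul_eq_mul, smul_eq_mul]
    norm_num [Nat.factorial]
    ring

lemma bounds_of_topology {N : X → ℝ} (hadd : ∀ x y, N (x + y) ≤ N x + N y)
    (hsm : ∀ (r : ℝ) x, N (r • x) = |r| * N x)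
    (htop : ∀ U : Set X, IsOpen U ↔ ∀ x ∈ U, ∃ r > 0, ∀ y, N (y - x) < r → y ∈ U) :
    ∃ a b : ℝ, 0 < a ∧ 0 < b ∧ ∀ x, a * ‖x‖ ≤ N x ∧ N x ≤ b * ‖x‖ := by
  have h0 : N 0 = 0 := by simpa using hsm 0 0
  obtain ⟨r, hr, h1⟩ := (htop (Metric.ball 0 1)).1 Metric.isOpen_ball 0 (by simp)
  have hU : IsOpen {y | N y < 1} := by
    refine (htop _).2 fun x hx => ⟨1 - N x, sub_pos.2 hx, fun y hy => ?_⟩
    have := hadd x (y - x)
    rw [add_sub_cancel] at this
    change N y < 1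
    linarith
  obtain ⟨ρ, hρ, h2⟩ := Metric.isOpen_iff.1 hU 0 (by simp [h0])
  refine ⟨r, 2 / ρ, hr, by positivity, fun x => ?_⟩
  by_cases hx : x = 0
  · simp [hx, h0]
  have hx0 : 0 < ‖x‖ := norm_pos_iff.2 hx
  constructor
  · by_contra hlt
    push Not at hlt
    have h3 := h1 (‖x‖⁻¹ • x) (by
      rw [sub_zero, hsm, abs_of_pos (by positivity), inv_mul_lt_iff₀ hx0]
      linarith)
    rw [mem_ball_zero_iff, norm_smul, norm_inv, norm_norm, inv_mul_cancel₀ hx0.ne'] at h3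
    exact lt_irrefl _ h3
  · have h3 : N ((ρ / 2 / ‖x‖) • x) < 1 := h2 (by
      rw [mem_ball_zero_iff, norm_smul, Real.norm_eq_abs, abs_of_pos (by positivity),
        div_mul_cancel₀ _ hx0.ne']
      linarith)
    rw [hsm, abs_of_pos (by positivity), div_mul_eq_mul_div, div_lt_one hx0] at h3
    rw [div_mul_eq_mul_div, le_div_iff₀ hρ]
    linarith

lemma exists_bump (P : ContinuousMultilinearMap ℝ (fun _ : Fin 4 => X) ℝ) {c : ℝ} (hc : 0 < c)
    (hP : ∀ x, c * ‖x‖ ^ 4 ≤ P (fun _ => x)) :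
    ∃ φ : X → ℝ, (∀ m : ℕ, ContDiff ℝ m φ) ∧ φ 0 ≠ 0 ∧
      Bornology.IsBounded (Function.support φ) := by
  refine ⟨fun x => expNegInvGlue (c - P (fun _ => x)), fun m => ?_, ?_, ?_⟩
  · refine expNegInvGlue.contDiff.comp (contDiff_const.sub ?_)
    exact P.contDiff.comp (contDiff_pi.2 fun _ => contDiff_id)
  · have : P (fun _ => (0 : X)) = 0 := P.map_coord_zero 0 rfl
    simp only [this, sub_zero]
    exact (expNegInvGlue.pos_of_pos hc).ne'
  · refine (Metric.isBounded_ball (x := (0 : X)) (r := 1)).subset fun x hx => ?_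
    rw [mem_ball_zero_iff]
    by_contra h
    push Not at h
    refine hx (expNegInvGlue.zero_of_nonpos ?_)
    have h1 : 1 ≤ ‖x‖ ^ 4 := one_le_pow₀ h
    nlinarith [hP x]

end Pool.Agent.Work.MP_2b187c_an
end
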